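import Mathlib

set_option autoImplicit false

/-!
# Complete rewriting systems and graph incidence groups
-/

namespace Pool.Agent.Lib.P1b5c59

/-- One rewriting step: a factor `u` of a word is replaced by `v`, where `u → v` is a rule.  Words
over the alphabet `A` are the elements of the free monoid on `A`. -/
def Step {A : Type} (R : Set (FreeMonoid A × FreeMonoid A)) (w w' : FreeMonoid A) : Prop :=
  ∃ x y u v : FreeMonoid A, (u, v) ∈ R ∧ w = x * u * y ∧ w' = x * v * y

/-- The group `H` has a complete rewriting system: there are a finite alphabet `A` and a finite set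
`R` of rules such that the monoid presented by `⟨A | u = v for (u → v) in R⟩` is isomorphic to `H`,
there is no infinite chain of rewriting steps, and the rewriting relation is confluent. -/
def HasCompleteRewritingSystem (H : Type) [Group H] : Prop :=
  ∃ (A : Type) (R : Set (FreeMonoid A × FreeMonoid A)), Finite A ∧ R.Finite ∧
    Nonempty (PresentedMonoid (fun u v => (u, v) ∈ R) ≃* H) ∧
    (¬ ∃ w : ℕ → FreeMonoid A, ∀ n, Step R (w n) (w (n + 1))) ∧
    (∀ w w₁ w₂, Relation.ReflTransGen (Step R) w w₁ → Relation.ReflTransGen (Step R) w w₂ →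
      ∃ w₃, Relation.ReflTransGen (Step R) w₁ w₃ ∧ Relation.ReflTransGen (Step R) w₂ w₃)

/-- Finite graphs without loops, multiple edges allowed. -/
structure MultiGraph where
  /-- the vertices -/
  V : Type
  /-- the edges -/
  E : Type
  /-- the two ends of an edge -/
  ends : E → Sym2 V
  finV : Finite V
  finE : Finite E
  loopless : ∀ e, ¬ (ends e).IsDiag

/-- The relators of `Γ(G, b)`; the generator `J` is `none`, the generator `x_e` is `some e`. -/
inductive ColRel (G : MultiGraph) (b : G.V → ZMod 2) : FreeGroup (Option G.E) → Prop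
  | J_sq : ColRel G b (FreeGroup.of none ^ 2)
  | x_sq (e : G.E) : ColRel G b (FreeGroup.of (some e) ^ 2)
  | comm_J (e : G.E) : ColRel G b (FreeGroup.of (some e) * FreeGroup.of none *
      (FreeGroup.of (some e))⁻¹ * (FreeGroup.of none)⁻¹)
  | comm (v : G.V) (e e' : G.E) (h : v ∈ G.ends e) (h' : v ∈ G.ends e') :
      ColRel G b (FreeGroup.of (some e) * FreeGroup.of (some e') *
        (FreeGroup.of (some e))⁻¹ * (FreeGroup.of (some e'))⁻¹)
  | vertex (v : G.V) (l : List G.E) (hl : l.Nodup) (hv : ∀ e, e ∈ l ↔ v ∈ G.ends e) :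
      ColRel G b ((l.map fun e => FreeGroup.of (some e)).prod *
        (FreeGroup.of none ^ (b v).val)⁻¹)

/-- The graph incidence group `Γ(G, b)`. -/
abbrev ColIncidenceGroup (G : MultiGraph) (b : G.V → ZMod 2) : Type :=
  PresentedGroup {r | ColRel G b r}

/-- The relators of `Γ(G)`. -/
inductive IncRel (G : MultiGraph) : FreeGroup G.E → Prop
  | x_sq (e : G.E) : IncRel G (FreeGroup.of e ^ 2)
  | comm (v : G.V) (e e' : G.E) (h : v ∈ G.ends e) (h' : v ∈ G.ends e') :
      IncRel G (FreeGroup.of e * FreeGroup.of e' * (FreeGroup.of e)⁻¹ * (FreeGroup.of e')⁻¹)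
  | vertex (v : G.V) (l : List G.E) (hl : l.Nodup) (hv : ∀ e, e ∈ l ↔ v ∈ G.ends e) :
      IncRel G (l.map FreeGroup.of).prod

/-- The graph incidence group `Γ(G)`. -/
abbrev IncidenceGroup (G : MultiGraph) : Type :=
  PresentedGroup {r | IncRel G r}

end Pool.Agent.Lib.P1b5c59
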