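import Mathlib
import Pool.Agent.Lib.P1b5c59.Defs

set_option autoImplicit false

namespace Pool.Agent.Lib.P1b5c59

open Relation

/-- Relative position of two factors of a word. -/
theorem overlap {A : Type} {x₀ u₀ y₀ x u y : List A} (h : x₀ ++ u₀ ++ y₀ = x ++ u ++ y) :
    (∃ t, x = x₀ ++ u₀ ++ t ∧ y₀ = t ++ u ++ y) ∨
    (∃ t, x₀ = x ++ u ++ t ∧ y = t ++ u₀ ++ y₀) ∨
    (∃ p q a₀ b₀ a b, x₀ = p ++ a₀ ∧ y₀ = b₀ ++ q ∧ x = p ++ a ∧ y = b ++ q ∧
      a₀ ++ u₀ ++ b₀ = a ++ u ++ b ∧ a₀.length ≤ u₀.length + u.length ∧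
      b₀.length ≤ u₀.length + u.length ∧ a.length ≤ u₀.length + u.length ∧
      b.length ≤ u₀.length + u.length) := by
  rw [List.append_assoc, List.append_assoc, List.append_eq_append_iff] at h
  rcases h with ⟨a', h1, h2⟩ | ⟨a', h1, h2⟩
  · -- `x = x₀ ++ a'`
    rw [List.append_eq_append_iff] at h2
    rcases h2 with ⟨a'', h3, h4⟩ | ⟨c'', h3, h4⟩
    · left
      exact ⟨a'', by rw [h1, h3, List.append_assoc], by rw [h4, List.append_assoc]⟩
    · right; right
      rw [List.append_eq_append_iff] at h4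
      rcases h4 with ⟨a3, h5, h6⟩ | ⟨c3, h5, h6⟩
      · refine ⟨x₀, y₀, [], [], a', a3, by simp, by simp, h1, h6, ?_, by simp, by simp, ?_, ?_⟩
        · rw [h3, h5]; simp
        · rw [h3, h5]; simp; omega
        · rw [h3, h5]; simp; omega
      · refine ⟨x₀, y, [], c3, a', [], by simp, h6, h1, by simp, ?_, by simp, ?_, ?_, by simp⟩
        · rw [h3, h5]; simp
        · rw [h3, h5]; simp; omega
        · rw [h3]; simp; omega
  · rw [List.append_eq_append_iff] at h2
    rcases h2 with ⟨a'', h3, h4⟩ | ⟨c'', h3, h4⟩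
    · right; left
      exact ⟨a'', by rw [h1, h3, List.append_assoc], by rw [h4, List.append_assoc]⟩
    · right; right
      rw [List.append_eq_append_iff] at h4
      rcases h4 with ⟨a3, h5, h6⟩ | ⟨c3, h5, h6⟩
      · refine ⟨x, y, a', a3, [], [], h1, h6, by simp, by simp, ?_, ?_, ?_, by simp, by simp⟩
        · rw [h3, h5]; simp
        · rw [h3, h5]; simp; omega
        · rw [h3, h5]; simp; omega
      · refine ⟨x, y₀, a', [], [], c3, h1, by simp, by simp, h6, ?_, ?_, by simp, by simp, ?_⟩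
        · rw [h3, h5]; simp
        · rw [h3]; simp; omega
        · rw [h3, h5]; simp; omega

theorem overlap' {A : Type} {x₀ u₀ y₀ x u y : FreeMonoid A} (h : x₀ * u₀ * y₀ = x * u * y) :
    (∃ t : FreeMonoid A, x = x₀ * u₀ * t ∧ y₀ = t * u * y) ∨
    (∃ t : FreeMonoid A, x₀ = x * u * t ∧ y = t * u₀ * y₀) ∨
    (∃ p q a₀ b₀ a b : FreeMonoid A, x₀ = p * a₀ ∧ y₀ = b₀ * q ∧ x = p * a ∧ y = b * q ∧
      a₀ * u₀ * b₀ = a * u * b ∧
      (FreeMonoid.toList a₀).length ≤ (FreeMonoid.toList u₀).length + (FreeMonoid.toList u).length ∧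
      (FreeMonoid.toList b₀).length ≤ (FreeMonoid.toList u₀).length + (FreeMonoid.toList u).length ∧
      (FreeMonoid.toList a).length ≤ (FreeMonoid.toList u₀).length + (FreeMonoid.toList u).length ∧
      (FreeMonoid.toList b).length ≤
        (FreeMonoid.toList u₀).length + (FreeMonoid.toList u).length) :=
  overlap (A := A) h

section
variable {A H N : Type} [Group H] [AddCommGroup N] (R : Set (FreeMonoid A × FreeMonoid A))
  (θ : FreeMonoid A →* H) (aN : H →* AddMonoid.End N) (lam : FreeMonoid A × FreeMonoid A → N)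

/-- Derivations with their values. -/
inductive Der : FreeMonoid A → FreeMonoid A → N → Prop
  | refl (w : FreeMonoid A) : Der w w 0
  | head (x y u v w : FreeMonoid A) (n : N) (h : (u, v) ∈ R) (hd : Der (x * v * y) w n) :
      Der (x * u * y) w (aN (θ x) (lam (u, v)) + n)

variable {R θ aN lam}

theorem Der.context {w w' : FreeMonoid A} {n : N} (h : Der R θ aN lam w w' n)
    (p q : FreeMonoid A) : Der R θ aN lam (p * w * q) (p * w' * q) (aN (θ p) n) := by
  induction h with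
  | refl w => rw [map_zero]; exact Der.refl _
  | head x y u v w n h hd ih =>
    rw [map_add]
    have h1 := Der.head (R := R) (θ := θ) (aN := aN) (lam := lam) (p * x) (y * q) u v (p * w * q)
      (aN (θ p) n) h (by simpa only [mul_assoc] using ih)
    have h2 : aN (θ (p * x)) (lam (u, v)) = aN (θ p) (aN (θ x) (lam (u, v))) := by
      rw [map_mul, map_mul]; rfl
    rw [h2] at h1
    simpa only [mul_assoc] using h1

theorem exists_der {w w' : FreeMonoid A} (h : ReflTransGen (Step R) w w') :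
    ∃ n, Der R θ aN lam w w' n := by
  induction h using ReflTransGen.head_induction_on with
  | refl => exact ⟨0, Der.refl _⟩
  | head h1 _ ih =>
    obtain ⟨n, hn⟩ := ih
    obtain ⟨x, y, u, v, huv, rfl, rfl⟩ := h1
    exact ⟨_, Der.head x y u v w' n huv hn⟩

end

theorem wf_of_term {A : Type} {R : Set (FreeMonoid A × FreeMonoid A)}
    (hterm : ¬ ∃ w : ℕ → FreeMonoid A, ∀ n, Step R (w n) (w (n + 1))) :
    WellFounded (fun w' w => Step R w w') := by
  rw [wellFounded_iff_isEmpty_descending_chain]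
  constructor
  rintro ⟨f, hf⟩
  exact hterm ⟨f, hf⟩

/-- A form of Squier's theorem. -/
theorem squier {A H N F : Type} [Finite A] [Group H] [AddCommGroup N] [AddCommGroup F]
    [Module (ZMod 2) N] {R : Set (FreeMonoid A × FreeMonoid A)} (hR : R.Finite)
    {θ : FreeMonoid A →* H} (hθ : ∀ u v, (u, v) ∈ R → θ u = θ v)
    (hterm : ¬ ∃ w : ℕ → FreeMonoid A, ∀ n, Step R (w n) (w (n + 1)))
    (hconf : ∀ w w₁ w₂, ReflTransGen (Step R) w w₁ → ReflTransGen (Step R) w w₂ →
      ∃ w₃, ReflTransGen (Step R) w₁ w₃ ∧ ReflTransGen (Step R) w₂ w₃)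
    (aN : H →* AddMonoid.End N) (lam : FreeMonoid A × FreeMonoid A → N) (ι : N →+ F)
    (d : FreeMonoid A → F)
    (hd : ∀ x y u v, (u, v) ∈ R → ι (aN (θ x) (lam (u, v))) = d (x * u * y) - d (x * v * y))
    (hfix : ∀ g n, ι n = 0 → aN g n = n) :
    ∃ (Z : AddSubgroup N) (Lam : FreeMonoid A → N), (Z : Set N).Finite ∧ (∀ z ∈ Z, ι z = 0) ∧
      ∀ x y u v, (u, v) ∈ R → Lam (x * u * y) - (aN (θ x) (lam (u, v)) + Lam (x * v * y)) ∈ Z := by
  classical
  have hder : ∀ {w w' n}, Der R θ aN lam w w' n → ι n = d w - d w' := by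
    intro w w' n h
    induction h with
    | refl w => simp
    | head x y u v w n h hd' ih => rw [map_add, hd x y u v h, ih]; abel
  -- bound on the lengths of the rules
  obtain ⟨L, hL⟩ : ∃ L : ℕ, ∀ r ∈ R, (FreeMonoid.toList r.1).length ≤ L := by
    obtain ⟨L, hL⟩ := (hR.image (fun r => (FreeMonoid.toList r.1).length)).bddAbove
    exact ⟨L, fun r hr => hL ⟨r, hr, rfl⟩⟩
  -- the critical configurations
  set T : Set ((FreeMonoid A × (FreeMonoid A × FreeMonoid A) × FreeMonoid A) ×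
      (FreeMonoid A × (FreeMonoid A × FreeMonoid A) × FreeMonoid A)) :=
    {t | (t.1.2.1 ∈ R ∧ t.2.2.1 ∈ R) ∧ t.1.1 * t.1.2.1.1 * t.1.2.2 = t.2.1 * t.2.2.1.1 * t.2.2.2 ∧
      (FreeMonoid.toList t.1.1).length ≤ L + L ∧ (FreeMonoid.toList t.1.2.2).length ≤ L + L ∧
      (FreeMonoid.toList t.2.1).length ≤ L + L ∧ (FreeMonoid.toList t.2.2.2).length ≤ L + L} with hT
  have hTfin : T.Finite := by
    have hl : {l : FreeMonoid A | (FreeMonoid.toList l).length ≤ L + L}.Finite :=
      List.finite_length_le A (L + L)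
    refine Set.Finite.subset ((hl.prod (hR.prod hl)).prod (hl.prod (hR.prod hl))) ?_
    rintro ⟨⟨a₀, r₀, b₀⟩, ⟨a, r, b⟩⟩ ⟨⟨h1, h2⟩, -, h3, h4, h5, h6⟩
    exact ⟨⟨h3, h1, h4⟩, ⟨h5, h2, h6⟩⟩
  have hex : ∀ t ∈ T, ∃ z : N, ι z = 0 ∧ ∃ c n₁ n₂,
      Der R θ aN lam (t.1.1 * t.1.2.1.2 * t.1.2.2) c n₁ ∧
      Der R θ aN lam (t.2.1 * t.2.2.1.2 * t.2.2.2) c n₂ ∧
      z = (aN (θ t.1.1) (lam t.1.2.1) + n₁) - (aN (θ t.2.1) (lam t.2.2.1) + n₂) := by
    rintro ⟨⟨a₀, ⟨u₀, v₀⟩, b₀⟩, ⟨a, ⟨u, v⟩, b⟩⟩ ⟨⟨h1, h2⟩, heq, -⟩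
    simp only at h1 h2 heq ⊢
    obtain ⟨c, hc1, hc2⟩ := hconf (a₀ * u₀ * b₀) (a₀ * v₀ * b₀) (a * v * b)
      (ReflTransGen.single ⟨a₀, b₀, u₀, v₀, h1, rfl, rfl⟩)
      (ReflTransGen.single ⟨a, b, u, v, h2, heq, rfl⟩)
    obtain ⟨n₁, hn₁⟩ := exists_der (θ := θ) (aN := aN) (lam := lam) hc1
    obtain ⟨n₂, hn₂⟩ := exists_der (θ := θ) (aN := aN) (lam := lam) hc2
    refine ⟨_, ?_, c, n₁, n₂, hn₁, hn₂, rfl⟩
    rw [map_sub, map_add, map_add, hd a₀ b₀ u₀ v₀ h1, hd a b u v h2, hder hn₁, hder hn₂, heq]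
    abel
  choose! zf hz0 hzc using hex
  set Z : AddSubgroup N := (Submodule.span (ZMod 2) (zf '' T)).toAddSubgroup with hZ
  have hZι : ∀ z ∈ Z, ι z = 0 := by
    intro z hz
    refine Submodule.span_induction (p := fun z _ => ι z = 0) ?_ ?_ ?_ ?_ hz
    · rintro _ ⟨t, ht, rfl⟩
      exact hz0 t ht
    · exact map_zero _
    · intro x y _ _ h1 h2
      rw [map_add, h1, h2, add_zero]
    · intro a x _ h1
      have : a = 0 ∨ a = 1 := by revert a; decide
      rcases this with rfl | rfl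
      · rw [zero_smul, map_zero]
      · rw [one_smul, h1]
  have hZfin : (Z : Set N).Finite := by
    have h1 : Module.Finite (ZMod 2) (Submodule.span (ZMod 2) (zf '' T)) :=
      Module.Finite.iff_fg.2 (Submodule.fg_span (hTfin.image _))
    have h2 : Finite (Submodule.span (ZMod 2) (zf '' T)) := Module.finite_of_finite (ZMod 2)
    exact h2
  have hZstab : ∀ g, ∀ z ∈ Z, aN g z ∈ Z := by
    intro g z hz
    rw [hfix g z (hZι z hz)]
    exact hz
  -- the potential
  have hwf := wf_of_term hterm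
  set Red : FreeMonoid A → FreeMonoid A × FreeMonoid A × (FreeMonoid A × FreeMonoid A) → Prop :=
    fun w t => t.2.2 ∈ R ∧ w = t.1 * t.2.2.1 * t.2.1 with hRed
  have hstep : ∀ w t, Red w t → Step R w (t.1 * t.2.2.2 * t.2.1) :=
    fun w t ht => ⟨t.1, t.2.1, t.2.2.1, t.2.2.2, ht.1, ht.2, rfl⟩
  set Lam : FreeMonoid A → N := hwf.fix (fun w ih => if h : ∃ t, Red w t then
    aN (θ h.choose.1) (lam h.choose.2.2) +
      ih (h.choose.1 * h.choose.2.2.2 * h.choose.2.1) (hstep w _ h.choose_spec) else 0) with hLamdef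
  have hLam : ∀ w, (∃ t, Red w t) → ∃ t, Red w t ∧
      Lam w = aN (θ t.1) (lam t.2.2) + Lam (t.1 * t.2.2.2 * t.2.1) := by
    intro w h
    refine ⟨h.choose, h.choose_spec, ?_⟩
    conv_lhs => rw [hLamdef, hwf.fix_eq, dif_pos h]
  refine ⟨Z, Lam, hZfin, hZι, ?_⟩
  -- the main claim
  have main : ∀ w x y u v, (u, v) ∈ R → w = x * u * y →
      Lam w - (aN (θ x) (lam (u, v)) + Lam (x * v * y)) ∈ Z := by
    intro w
    induction w using hwf.transGen.induction with
    | _ w ih =>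
      have ihder : ∀ {w₁ w₂ n}, Der R θ aN lam w₁ w₂ n →
          TransGen (fun w' w => Step R w w') w₁ w → Lam w₁ - (n + Lam w₂) ∈ Z := by
        intro w₁ w₂ n hder
        induction hder with
        | refl w => intro _; simp [Z.zero_mem]
        | head x y u v w₂ n h hd' ih' =>
          intro hs
          have h1 := ih _ hs x y u v h rfl
          have h2 := ih' (TransGen.head ⟨x, y, u, v, h, rfl, rfl⟩ hs)
          have h3 := Z.add_mem h1 h2
          convert h3 using 1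
          abel
      intro x y u v huv hw
      obtain ⟨⟨x₀, y₀, ⟨u₀, v₀⟩⟩, ⟨huv₀, hw₀⟩, hval⟩ := hLam w ⟨(x, y, (u, v)), huv, hw⟩
      simp only at huv₀ hw₀ hval
      rw [hval]
      have hs₀ : Step R w (x₀ * v₀ * y₀) := ⟨x₀, y₀, u₀, v₀, huv₀, hw₀, rfl⟩
      have hs : Step R w (x * v * y) := ⟨x, y, u, v, huv, hw, rfl⟩
      have heq : x₀ * u₀ * y₀ = x * u * y := hw₀.symm.trans hw
      rcases overlap' heq with ⟨t, h1, h2⟩ | ⟨t, h1, h2⟩ |
        ⟨p, q, a₀, b₀, a, b, h1, h2, h3, h4, h5, h6, h7, h8, h9⟩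
      · -- disjoint, `u₀` on the left
        have k1 := ih _ (TransGen.single hs₀) (x₀ * v₀ * t) y u v huv (by rw [h2]; simp only [mul_assoc])
        have k2 := ih _ (TransGen.single hs) x₀ (t * v * y) u₀ v₀ huv₀ (by rw [h1]; simp only [mul_assoc])
        have k3 : θ (x₀ * v₀ * t) = θ x := by
          rw [h1, map_mul, map_mul, map_mul, map_mul, hθ _ _ huv₀]
        have k4 : x₀ * v₀ * (t * v * y) = x₀ * v₀ * t * v * y := by simp only [mul_assoc]
        rw [k3] at k1
        rw [k4] at k2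
        have k5 := Z.sub_mem k1 k2
        convert k5 using 1
        abel
      · -- disjoint, `u₀` on the right
        have k1 := ih _ (TransGen.single hs₀) x (t * v₀ * y₀) u v huv (by rw [h1]; simp only [mul_assoc])
        have k2 := ih _ (TransGen.single hs) (x * v * t) y₀ u₀ v₀ huv₀ (by rw [h2]; simp only [mul_assoc])
        have k3 : θ (x * v * t) = θ x₀ := by
          rw [h1, map_mul, map_mul, map_mul, map_mul, hθ _ _ huv]
        have k4 : x * v * (t * v₀ * y₀) = x * v * t * v₀ * y₀ := by simp only [mul_assoc]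
        rw [k3] at k2
        rw [k4] at k1
        have k5 := Z.sub_mem k1 k2
        convert k5 using 1
        abel
      · -- overlapping
        have hl₀ := hL _ huv₀
        have hl := hL _ huv
        have ht : ((a₀, (u₀, v₀), b₀), (a, (u, v), b)) ∈ T :=
          ⟨⟨huv₀, huv⟩, h5, h6.trans (Nat.add_le_add hl₀ hl), h7.trans (Nat.add_le_add hl₀ hl),
            h8.trans (Nat.add_le_add hl₀ hl), h9.trans (Nat.add_le_add hl₀ hl)⟩
        obtain ⟨c, n₁, n₂, hd₁, hd₂, hz⟩ := hzc _ ht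
        simp only at hd₁ hd₂ hz
        have hzZ : zf ((a₀, (u₀, v₀), b₀), (a, (u, v), b)) ∈ Z :=
          Submodule.subset_span ⟨_, ht, rfl⟩
        have k1 := ihder (hd₁.context p q) (by
          have : p * (a₀ * v₀ * b₀) * q = x₀ * v₀ * y₀ := by rw [h1, h2]; simp only [mul_assoc]
          rw [this]; exact TransGen.single hs₀)
        have k2 := ihder (hd₂.context p q) (by
          have : p * (a * v * b) * q = x * v * y := by rw [h3, h4]; simp only [mul_assoc]
          rw [this]; exact TransGen.single hs)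
        have e1 : p * (a₀ * v₀ * b₀) * q = x₀ * v₀ * y₀ := by rw [h1, h2]; simp only [mul_assoc]
        have e2 : p * (a * v * b) * q = x * v * y := by rw [h3, h4]; simp only [mul_assoc]
        rw [e1] at k1
        rw [e2] at k2
        have e3 : aN (θ x₀) (lam (u₀, v₀)) = aN (θ p) (aN (θ a₀) (lam (u₀, v₀))) := by
          rw [h1, map_mul, map_mul]; rfl
        have e4 : aN (θ x) (lam (u, v)) = aN (θ p) (aN (θ a) (lam (u, v))) := by
          rw [h3, map_mul, map_mul]; rfl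
        have k3 := hZstab (θ p) _ hzZ
        rw [hz, map_sub, map_add, map_add, ← e3, ← e4] at k3
        have k4 := Z.add_mem (Z.sub_mem k1 k2) k3
        convert k4 using 1
        abel
  exact fun x y u v huv => main _ x y u v huv rfl

end Pool.Agent.Lib.P1b5c59
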