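import Mathlib
import Pool.Agent.Lib.P1b5c59.Squier

set_option autoImplicit false

namespace Pool.Agent.Lib.P1b5c59

open Relation

/-- Fox-type sum along a list of group elements. -/
def psum {H N : Type} [Group H] [AddCommGroup N] (aN : H →* AddMonoid.End N) (E : H → N) :
    List H → N
  | [] => 0
  | a :: l => E a + aN a (psum aN E l)

theorem psum_append {H N : Type} [Group H] [AddCommGroup N] (aN : H →* AddMonoid.End N)
    (E : H → N) (l l' : List H) :
    psum aN E (l ++ l') = psum aN E l + aN l.prod (psum aN E l') := by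
  induction l with
  | nil => simp [psum]
  | cons a l ih =>
    have : aN (a * l.prod) (psum aN E l') = aN a (aN l.prod (psum aN E l')) := by
      rw [map_mul]; rfl
    rw [List.cons_append, psum, ih, psum, map_add, List.prod_cons, this]
    abel

theorem criterion {H N F C : Type} [Group H] [AddCommGroup N] [AddCommGroup F] [AddCommGroup C]
    [Module (ZMod 2) N] (hH : HasCompleteRewritingSystem H)
    (aN : H →* AddMonoid.End N) (aF : H →* AddMonoid.End F) (aC : H →* AddMonoid.End C)
    (ι : N →+ F) (π : F →+ C) (hι : ∀ g n, ι (aN g n) = aF g (ι n))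
    (hπ : ∀ g f, π (aF g f) = aC g (π f)) (hexact : ∀ f, π f = 0 → ∃ n, ι n = f)
    (hsurj : Function.Surjective π) (htriv : ∀ g n, ι n = 0 → aN g n = n)
    (δ : H → C) (hδ : ∀ g g', δ (g * g') = δ g + aC g (δ g'))
    (τ : H) (hτN : aN τ = 1) (hτF : aF τ = 1) (y₀ : F) (hy₀ : π y₀ = δ τ)
    (E : H → N) (hE : ∀ a, Commute τ a → ι (E a) = y₀ - aF a y₀) :
    ∃ Z : Set N, Z.Finite ∧ ∀ l : List H, (∀ a ∈ l, Commute τ a) → l.prod * l.prod = 1 →
      psum aN E l + aN l.prod (psum aN E l) ∈ Z := by
  classical
  obtain ⟨A, R, hA, hR, ⟨e⟩, hterm, hconf⟩ := hH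
  set θ : FreeMonoid A →* H := e.toMonoidHom.comp (PresentedMonoid.mk (fun u v => (u, v) ∈ R))
    with hθdef
  have hker : ∀ w w', θ w = θ w' → conGen (fun u v => (u, v) ∈ R) w w' := by
    intro w w' h
    have h1 : PresentedMonoid.mk (fun u v => (u, v) ∈ R) w =
      PresentedMonoid.mk (fun u v => (u, v) ∈ R) w' := e.injective h
    exact Quotient.exact h1
  have hker' : ∀ w w', conGen (fun u v => (u, v) ∈ R) w w' → θ w = θ w' := by
    intro w w' h
    have h1 : PresentedMonoid.mk (fun u v => (u, v) ∈ R) w =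
      PresentedMonoid.mk (fun u v => (u, v) ∈ R) w' := Quotient.sound h
    exact congrArg e h1
  have hθ : ∀ u v, (u, v) ∈ R → θ u = θ v := fun u v h => hker' u v (ConGen.Rel.of _ _ h)
  have hθsurj : Function.Surjective θ := by
    intro g
    obtain ⟨x, rfl⟩ := e.surjective g
    obtain ⟨w, rfl⟩ := Quotient.exists_rep x
    exact ⟨w, rfl⟩
  have aNmul : ∀ g g' n, aN (g * g') n = aN g (aN g' n) := by
    intro g g' n; rw [map_mul]; rfl
  have aFmul : ∀ g g' n, aF (g * g') n = aF g (aF g' n) := by
    intro g g' n; rw [map_mul]; rfl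
  have aNθ : ∀ x w n, aN (θ (x * w)) n = aN (θ x) (aN (θ w) n) := by
    intro x w n; rw [map_mul, map_mul]; rfl
  have aN1 : ∀ n, aN 1 n = n := by intro n; rw [map_one]; rfl
  have aF1 : ∀ n, aF 1 n = n := by intro n; rw [map_one]; rfl
  have aC1 : ∀ n, aC 1 n = n := by intro n; rw [map_one]; rfl
  have hδ1 : δ 1 = 0 := by
    have := hδ 1 1
    rw [mul_one, aC1] at this
    exact left_eq_add.1 this
  -- lifting the crossed homomorphism to words
  choose dl hdl using fun a : A => hsurj (δ (θ (FreeMonoid.of a)))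
  set d : FreeMonoid A → F := fun w =>
    List.rec (motive := fun _ => F) 0 (fun a _ r => dl a + aF (θ (FreeMonoid.of a)) r)
      (FreeMonoid.toList w) with hd
  have d1 : d 1 = 0 := rfl
  have dcons : ∀ a w, d (FreeMonoid.of a * w) = dl a + aF (θ (FreeMonoid.of a)) (d w) :=
    fun a w => rfl
  have dmul : ∀ x y, d (x * y) = d x + aF (θ x) (d y) := by
    intro x y
    induction x using FreeMonoid.inductionOn' with
    | one => rw [one_mul, d1, map_one, aF1, zero_add]
    | of_mul a x ih => rw [mul_assoc, dcons, dcons, ih, map_add, map_mul, aFmul]; abel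
  have hπd : ∀ w, π (d w) = δ (θ w) := by
    intro w
    induction w using FreeMonoid.inductionOn' with
    | one => rw [d1, map_zero, map_one, hδ1]
    | of_mul a x ih => rw [dcons, map_add, hdl, hπ, ih, map_mul, hδ]
  have hlam : ∀ r : FreeMonoid A × FreeMonoid A, r ∈ R → ∃ n, ι n = d r.1 - d r.2 := by
    rintro ⟨u, v⟩ h
    apply hexact
    rw [map_sub, hπd, hπd, hθ u v h, sub_self]
  choose! lam hlam' using hlam
  have hdstep : ∀ x y u v, (u, v) ∈ R →
      ι (aN (θ x) (lam (u, v))) = d (x * u * y) - d (x * v * y) := by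
    intro x y u v h
    have hxu : θ (x * u) = θ (x * v) := by rw [map_mul, map_mul, hθ u v h]
    rw [hι, hlam' _ h, dmul (x * u), dmul (x * v), dmul x u, dmul x v, map_sub, hxu]
    abel
  obtain ⟨Z, Lam, hZfin, hZι, hLam⟩ := squier hR hθ hterm hconf aN lam ι d hdstep htriv
  have hZstab : ∀ g, ∀ z ∈ Z, aN g z ∈ Z := by
    intro g z hz
    rw [htriv g z (hZι z hz)]
    exact hz
  -- the potential and congruences
  have hcon : ∀ w w', conGen (fun u v => (u, v) ∈ R) w w' →
      (∀ x y, Lam (x * w * y) - Lam (x * w' * y) - aN (θ x) (Lam w - Lam w') ∈ Z) ∧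
      ι (Lam w - Lam w') = d w - d w' := by
    intro w w' h
    have h' : ConGen.Rel (fun u v => (u, v) ∈ R) w w' := h
    clear h
    induction h' with
    | of u v h =>
      have h1 := hLam 1 1 u v h
      rw [one_mul, mul_one, one_mul, mul_one, map_one, aN1] at h1
      constructor
      · intro x y
        have h2 := hLam x y u v h
        have h3 := hZstab (θ x) _ h1
        have h4 := Z.sub_mem h2 h3
        convert h4 using 1
        rw [map_sub, map_sub, map_add]
        abel
      · have h2 := hZι _ h1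
        have h3 := hdstep 1 1 u v h
        rw [one_mul, mul_one, one_mul, mul_one, map_one, aN1] at h3
        rw [map_sub, map_add, h3] at h2
        rw [map_sub]
        have h5 := sub_eq_zero.1 h2
        rw [h5]; abel
    | refl x => simp [Z.zero_mem]
    | symm _ ih =>
      refine ⟨fun x y => ?_, ?_⟩
      · have := Z.neg_mem (ih.1 x y)
        convert this using 1
        rw [map_sub, map_sub]
        abel
      · have := ih.2
        rw [map_sub] at this ⊢
        rw [← neg_sub, this]; abel
    | trans _ _ ih1 ih2 =>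
      refine ⟨fun x y => ?_, ?_⟩
      · have := Z.add_mem (ih1.1 x y) (ih2.1 x y)
        convert this using 1
        simp only [map_sub]
        abel
      · have h1 := ih1.2
        have h2 := ih2.2
        rw [map_sub] at h1 h2 ⊢
        rw [← sub_add_sub_cancel, h1, h2, sub_add_sub_cancel]
    | @mul w₁ w₁' w₂ w₂' hw₁ hw₂ ih1 ih2 =>
      have e1 : θ w₁ = θ w₁' := hker' _ _ hw₁
      have e2 : θ w₂ = θ w₂' := hker' _ _ hw₂
      have k1 := ih1.1 1 w₂
      have k2 := ih2.1 w₁' 1
      rw [one_mul, one_mul, map_one, aN1] at k1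
      rw [mul_one, mul_one] at k2
      have k3 := Z.add_mem k1 k2
      refine ⟨fun x y => ?_, ?_⟩
      · have k4 := ih1.1 x (w₂ * y)
        have k5 := ih2.1 (x * w₁') y
        have k6 := hZstab (θ x) _ k3
        have k7 := Z.sub_mem (Z.add_mem k4 k5) k6
        convert k7 using 1
        simp only [map_sub, map_add, aNθ, mul_assoc]
        abel
      · have k4 := hZι _ k3
        have k5 : ι ((Lam (w₁ * w₂) - Lam (w₁' * w₂)) - (Lam w₁ - Lam w₁')) =
            ι (Lam (w₁ * w₂)) - ι (Lam (w₁' * w₂)) - (d w₁ - d w₁') := by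
          rw [map_sub, ih1.2, map_sub]
        have k6 : ι ((Lam (w₁' * w₂) - Lam (w₁' * w₂')) - aN (θ w₁') (Lam w₂ - Lam w₂')) =
            ι (Lam (w₁' * w₂)) - ι (Lam (w₁' * w₂')) - (aF (θ w₁') (d w₂) - aF (θ w₁') (d w₂')) := by
          rw [map_sub, hι, ih2.2, map_sub, map_sub]
        rw [map_add, k5, k6] at k4
        rw [map_sub, dmul, dmul, e1, ← sub_eq_zero, ← k4]
        abel
  have hS : ∀ w w', θ w = θ w' → ∀ x y,
      Lam (x * w * y) - Lam (x * w' * y) - aN (θ x) (Lam w - Lam w') ∈ Z :=
    fun w w' h => (hcon w w' (hker w w' h)).1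
  have hSι : ∀ w w', θ w = θ w' → ι (Lam w - Lam w') = d w - d w' :=
    fun w w' h => (hcon w w' (hker w w' h)).2
  choose Wd hWd using hθsurj
  set T := Wd τ with hT
  have hTτ : θ T = τ := hWd τ
  set D : H → N := fun a => Lam (T * Wd a) - Lam (Wd a * T) with hD
  have hcomm : ∀ a, Commute τ a → θ (T * Wd a) = θ (Wd a * T) := by
    intro a ha
    rw [map_mul, map_mul, hTτ, hWd]
    exact ha
  -- moving `T` through the word of a list
  have hII : ∀ l : List H, (∀ a ∈ l, Commute τ a) →
      Lam (T * (l.map Wd).prod) - Lam ((l.map Wd).prod * T) - psum aN D l ∈ Z := by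
    intro l
    induction l with
    | nil => intro _; simp [psum, Z.zero_mem]
    | cons a l ih =>
      intro hl
      have h1 := ih (fun b hb => hl b (by simp [hb]))
      have h2 := hS _ _ (hcomm a (hl a (by simp))) 1 (l.map Wd).prod
      have h3 : θ (T * (l.map Wd).prod) = θ ((l.map Wd).prod * T) := by
        rw [map_mul, map_mul, hTτ, map_list_prod, List.map_map]
        have : (θ ∘ Wd) = id := by funext g; exact hWd g
        rw [this, List.map_id]
        exact Commute.list_prod_right _ _ (fun b hb => hl b (by simp [hb]))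
      have h4 := hS _ _ h3 (Wd a) 1
      have h5 := hZstab a _ h1
      rw [hWd] at h4
      rw [map_one, aN1] at h2
      have h6 := Z.add_mem (Z.add_mem h2 h4) h5
      rw [List.map_cons, List.prod_cons, psum]
      convert h6 using 1
      simp only [one_mul, mul_one, mul_assoc, map_sub, hD]
      abel
  have hθl : ∀ l : List H, θ (l.map Wd).prod = l.prod := by
    intro l
    rw [map_list_prod, List.map_map]
    have : (θ ∘ Wd) = id := by funext g; exact hWd g
    rw [this, List.map_id]
  have hI : ∀ l : List H, l.prod = 1 →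
      Lam (T * (l.map Wd).prod) - Lam ((l.map Wd).prod * T) ∈ Z := by
    intro l hl
    have h1 : θ (l.map Wd).prod = θ 1 := by rw [hθl, hl, map_one]
    have h2 := hS _ _ h1 T 1
    have h3 := hS _ _ h1 1 T
    rw [hTτ, hτN] at h2
    rw [map_one, aN1] at h3
    have h4 := Z.sub_mem h2 h3
    convert h4 using 1
    simp only [one_mul, mul_one, AddMonoid.End.one_apply]
    abel
  -- correction terms
  obtain ⟨κ, hκ⟩ := hexact (d T - y₀) (by rw [map_sub, hπd, hTτ, hy₀, sub_self])
  set ν : H → N := fun a => D a - (E a + κ - aN a κ) with hν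
  have hνι : ∀ a, Commute τ a → ι (ν a) = 0 := by
    intro a ha
    have h1 : ι (D a) = d T - aF a (d T) := by
      rw [hD]
      simp only
      rw [hSι _ _ (hcomm a ha), dmul, dmul, hTτ, hWd, hτF, AddMonoid.End.one_apply]
      abel
    rw [hν]
    simp only
    rw [map_sub, h1, map_sub, map_add, hE a ha, hι, hκ, map_sub]
    abel
  have hpsum : ∀ l : List H, (∀ a ∈ l, Commute τ a) →
      psum aN D l = psum aN E l + κ - aN l.prod κ + (l.map ν).sum ∧ ι (l.map ν).sum = 0 := by
    intro l
    induction l with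
    | nil => intro _; simp [psum]
    | cons a l ih =>
      intro hl
      obtain ⟨h1, h2⟩ := ih (fun b hb => hl b (by simp [hb]))
      have h3 := hνι a (hl a (by simp))
      have h4 : D a = E a + κ - aN a κ + ν a := by rw [hν]; simp
      refine ⟨?_, ?_⟩
      · rw [psum, psum, h1, List.prod_cons, List.map_cons, List.sum_cons, h4, aNmul]
        simp only [map_add, map_sub]
        rw [htriv a _ h2]
        abel
      · rw [List.map_cons, List.sum_cons, map_add, h3, h2, add_zero]
  refine ⟨Z, hZfin, ?_⟩
  intro l hl hl2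
  have hll : ∀ a ∈ l ++ l, Commute τ a := by
    intro a ha
    rw [List.mem_append] at ha
    rcases ha with ha | ha <;> exact hl a ha
  have h1 := hI (l ++ l) (by rw [List.prod_append, hl2])
  have h2 := hII (l ++ l) hll
  have h3 := Z.sub_mem h1 h2
  rw [sub_sub_cancel, psum_append, (hpsum l hl).1] at h3
  have h4 := (hpsum l hl).2
  have h5 : (l.map ν).sum + (l.map ν).sum = 0 := by
    rw [← two_smul (ZMod 2)]
    have : (2 : ZMod 2) = 0 := by decide
    rw [this, zero_smul]
  simp only [map_add, map_sub] at h3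
  rw [← aNmul, hl2, aN1, htriv _ _ h4] at h3
  change _ ∈ Z
  convert h3 using 1
  have h6 : psum aN E l + κ - (aN l.prod) κ + (l.map ν).sum +
      ((aN l.prod) (psum aN E l) + (aN l.prod) κ - κ + (l.map ν).sum) =
      psum aN E l + (aN l.prod) (psum aN E l) + ((l.map ν).sum + (l.map ν).sum) := by abel
  rw [h6, h5, add_zero]

end Pool.Agent.Lib.P1b5c59
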