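import Mathlib
import Pool.Agent.Lib.P1b5c59.Criterion

set_option autoImplicit false

namespace Pool.Agent.Lib.P1b5c59

theorem zmod2_cases (c : ZMod 2) : c = 0 ∨ c = 1 := by revert c; decide

/-- isometries of `ℤ` -/
def D : Subgroup (Equiv.Perm ℤ) where
  carrier := {c | ∀ j m, (c (j + m) = c j + m ∧ c (j - m) = c j - m) ∨
    (c (j + m) = c j - m ∧ c (j - m) = c j + m)}
  one_mem' := fun j m => Or.inl ⟨rfl, rfl⟩
  mul_mem' := by
    intro a b ha hb j m
    simp only [Equiv.Perm.coe_mul, Function.comp_apply]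
    rcases hb j m with ⟨h1, h2⟩ | ⟨h1, h2⟩
    · rw [h1, h2]
      exact ha (b j) m
    · rw [h1, h2]
      rcases ha (b j) m with ⟨h3, h4⟩ | ⟨h3, h4⟩
      · right; exact ⟨h4, h3⟩
      · left; exact ⟨h4, h3⟩
  inv_mem' := by
    intro a ha j m
    have h0 : a (a⁻¹ j) = j := Equiv.apply_symm_apply a j
    have hinv : ∀ x y, a x = y → a⁻¹ y = x := fun x y h => by
      rw [← h]; exact Equiv.symm_apply_apply a x
    rcases ha (a⁻¹ j) m with ⟨h1, h2⟩ | ⟨h1, h2⟩
    · rw [h0] at h1 h2
      left; exact ⟨hinv _ _ h1, hinv _ _ h2⟩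
    · rw [h0] at h1 h2
      right; exact ⟨hinv _ _ h2, hinv _ _ h1⟩

theorem D_sum (c : D) (g : ℤ → ZMod 2) (j m : ℤ) :
    g (c.1 (j + m)) + g (c.1 (j - m)) = g (c.1 j + m) + g (c.1 j - m) := by
  rcases c.2 j m with ⟨h1, h2⟩ | ⟨h1, h2⟩
  · rw [h1, h2]
  · rw [h1, h2, add_comm]

/-- The group acting on the modules. -/
@[ext] structure W where
  /-- value of the crossed homomorphism -/
  g : D →₀ ZMod 2
  /-- first translation part -/
  p : ℤ → ZMod 2
  /-- first isometry -/
  a : D
  /-- second translation part -/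
  q : ℤ →₀ ZMod 2
  /-- second isometry -/
  c : D

namespace W

/-- action on the set `D` -/
def actX (w : W) (x : D) : D := w.a * x * w.c⁻¹

/-- action on the free module on `D` -/
noncomputable def actC (w : W) : (D →₀ ZMod 2) →+ (D →₀ ZMod 2) :=
  Finsupp.mapDomain.addMonoidHom w.actX

noncomputable instance : Mul W where
  mul w w' := ⟨w.g + w.actC w'.g, fun j => w.p j + w'.p ((w.a⁻¹ : D).1 j), w.a * w'.a,
    w.q + Finsupp.mapDomain w.c.1 w'.q, w.c * w'.c⟩

noncomputable instance : One W where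
  one := ⟨0, 0, 1, 0, 1⟩

noncomputable instance : Inv W where
  inv w := ⟨Finsupp.mapDomain (fun x => w.a⁻¹ * x * w.c) (-w.g), fun j => -w.p (w.a.1 j), w.a⁻¹,
    Finsupp.mapDomain (w.c⁻¹ : D).1 (-w.q), w.c⁻¹⟩

theorem mul_g (w w' : W) : (w * w').g = w.g + w.actC w'.g := rfl
theorem mul_p (w w' : W) (j : ℤ) : (w * w').p j = w.p j + w'.p ((w.a⁻¹ : D).1 j) := rfl
theorem mul_a (w w' : W) : (w * w').a = w.a * w'.a := rfl
theorem mul_q (w w' : W) : (w * w').q = w.q + Finsupp.mapDomain w.c.1 w'.q := rfl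
theorem mul_c (w w' : W) : (w * w').c = w.c * w'.c := rfl
theorem one_g : (1 : W).g = 0 := rfl
theorem one_p : (1 : W).p = 0 := rfl
theorem one_a : (1 : W).a = 1 := rfl
theorem one_q : (1 : W).q = 0 := rfl
theorem one_c : (1 : W).c = 1 := rfl

theorem actX_mul (w w' : W) (x : D) : (w * w').actX x = w.actX (w'.actX x) := by
  simp only [actX, mul_a, mul_c, mul_inv_rev, mul_assoc]

theorem actX_one (x : D) : (1 : W).actX x = x := by
  simp [actX, one_a, one_c]

theorem actC_mul (w w' : W) (k : D →₀ ZMod 2) : (w * w').actC k = w.actC (w'.actC k) := by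
  simp only [actC, Finsupp.mapDomain.addMonoidHom_apply]
  have : (w * w').actX = w.actX ∘ w'.actX := by funext x; exact actX_mul w w' x
  rw [this, Finsupp.mapDomain_comp]

theorem actC_one (k : D →₀ ZMod 2) : (1 : W).actC k = k := by
  simp only [actC, Finsupp.mapDomain.addMonoidHom_apply]
  have : (1 : W).actX = id := by funext x; exact actX_one x
  rw [this, Finsupp.mapDomain_id]

noncomputable instance : Group W :=
  Group.ofLeftAxioms
    (by
      intro x y z
      ext1
      · rw [mul_g, mul_g, mul_g, mul_g, map_add, actC_mul, add_assoc]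
      · funext j
        rw [mul_p, mul_p, mul_p, mul_p, mul_a, add_assoc]
        simp [mul_inv_rev]
      · rw [mul_a, mul_a, mul_a, mul_a, mul_assoc]
      · rw [mul_q, mul_q, mul_q, mul_q, Finsupp.mapDomain_add, ← Finsupp.mapDomain_comp, mul_c,
          add_assoc]
        rfl
      · rw [mul_c, mul_c, mul_c, mul_c, mul_assoc])
    (by
      intro x
      ext1
      · rw [mul_g, one_g, actC_one, zero_add]
      · funext j
        rw [mul_p, one_p, one_a]
        simp
      · rw [mul_a, one_a, one_mul]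
      · rw [mul_q, one_q, one_c, zero_add]
        exact Finsupp.mapDomain_id
      · rw [mul_c, one_c, one_mul])
    (by
      intro x
      ext1
      · rw [mul_g]
        change Finsupp.mapDomain (fun y => x.a⁻¹ * y * x.c) (-x.g) +
          Finsupp.mapDomain (fun y => x.a⁻¹ * y * (x.c⁻¹)⁻¹) x.g = 0
        rw [inv_inv, ← Finsupp.mapDomain_add, neg_add_cancel, Finsupp.mapDomain_zero]
      · funext j
        rw [mul_p]
        change -x.p (x.a.1 j) + x.p (((x.a⁻¹)⁻¹ : D).1 j) = 0
        rw [inv_inv, neg_add_cancel]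
      · exact inv_mul_cancel x.a
      · rw [mul_q]
        change Finsupp.mapDomain (x.c⁻¹ : D).1 (-x.q) + Finsupp.mapDomain (x.c⁻¹ : D).1 x.q = 0
        rw [← Finsupp.mapDomain_add, neg_add_cancel, Finsupp.mapDomain_zero]
      · exact inv_mul_cancel x.c)

/-- action on `D × ℤ` -/
def actY (w : W) (y : D × ℤ) : D × ℤ := (w.actX y.1, w.a.1 y.2)

theorem actY_mul (w w' : W) (y : D × ℤ) : (w * w').actY y = w.actY (w'.actY y) := by
  simp only [actY, actX_mul, mul_a]
  rfl

theorem actY_one (y : D × ℤ) : (1 : W).actY y = y := by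
  simp only [actY, actX_one, one_a]
  rfl

/-- action on the free module on `D × ℤ` -/
noncomputable def actK (w : W) : ((D × ℤ) →₀ ZMod 2) →+ ((D × ℤ) →₀ ZMod 2) :=
  Finsupp.mapDomain.addMonoidHom w.actY

theorem actK_mul (w w' : W) (k : (D × ℤ) →₀ ZMod 2) : (w * w').actK k = w.actK (w'.actK k) := by
  simp only [actK, Finsupp.mapDomain.addMonoidHom_apply]
  have : (w * w').actY = w.actY ∘ w'.actY := by funext x; exact actY_mul w w' x
  rw [this, Finsupp.mapDomain_comp]

theorem actK_one (k : (D × ℤ) →₀ ZMod 2) : (1 : W).actK k = k := by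
  simp only [actK, Finsupp.mapDomain.addMonoidHom_apply]
  have : (1 : W).actY = id := by funext x; exact actY_one x
  rw [this, Finsupp.mapDomain_id]

/-- the cocycle defining the extension `N` -/
def lN0 (w : W) (y : D × ℤ) : ℕ → ZMod 2 :=
  fun n => w.p (w.a.1 y.2 + (2 * n + 1)) + w.p (w.a.1 y.2 - (2 * n + 1))

/-- linear extension -/
noncomputable def lN (w : W) : ((D × ℤ) →₀ ZMod 2) →+ (ℕ → ZMod 2) :=
  (Finsupp.linearCombination (ZMod 2) w.lN0).toAddMonoidHom

theorem lN_single (w : W) (y : D × ℤ) (c : ZMod 2) :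
    w.lN (Finsupp.single y c) = c • w.lN0 y := by
  simp [lN, Finsupp.linearCombination_single]

theorem lN0_mul (w w' : W) (y : D × ℤ) : (w * w').lN0 y = w.lN0 (w'.actY y) + w'.lN0 y := by
  funext n
  simp only [lN0, mul_p, mul_a, Pi.add_apply, actY]
  have h1 := D_sum (w.a⁻¹) w'.p ((w.a * w'.a : D).1 y.2) (2 * n + 1)
  have h2 : ((w.a⁻¹ : D).1 ((w.a * w'.a : D).1 y.2)) = w'.a.1 y.2 := by
    have : (w.a⁻¹ * (w.a * w'.a) : D) = w'.a := by group
    conv_rhs => rw [← this]
    rfl
  rw [h2] at h1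
  have h3 : ((w.a * w'.a : D).1 y.2) = w.a.1 (w'.a.1 y.2) := rfl
  rw [h3] at h1 ⊢
  linear_combination h1

theorem lN_mul (w w' : W) (k : (D × ℤ) →₀ ZMod 2) :
    (w * w').lN k = w.lN (w'.actK k) + w'.lN k := by
  induction k using Finsupp.induction_linear with
  | zero => simp
  | add k k' h1 h2 => rw [map_add, map_add, map_add, map_add, h1, h2]; abel
  | single y c =>
    have : w'.actK (Finsupp.single y c) = Finsupp.single (w'.actY y) c := by
      simp [actK, Finsupp.mapDomain_single]
    rw [lN_single, this, lN_single, lN_single, lN0_mul, smul_add]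

/-- the cocycle defining the extension `F` -/
noncomputable def lF0 (w : W) (x : D) : (D × ℤ) →₀ ZMod 2 :=
  Finsupp.mapDomain (fun i => (w.actX x, (w.actX x).1 i)) w.q

/-- linear extension -/
noncomputable def lF (w : W) : (D →₀ ZMod 2) →+ ((D × ℤ) →₀ ZMod 2) :=
  (Finsupp.linearCombination (ZMod 2) w.lF0).toAddMonoidHom

theorem lF_single (w : W) (x : D) (c : ZMod 2) : w.lF (Finsupp.single x c) = c • w.lF0 x := by
  simp [lF, Finsupp.linearCombination_single]

theorem lF0_mul (w w' : W) (x : D) : (w * w').lF0 x = w.lF0 (w'.actX x) + w.actK (w'.lF0 x) := by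
  simp only [lF0, mul_q, actX_mul, actK, Finsupp.mapDomain.addMonoidHom_apply,
    Finsupp.mapDomain_add, ← Finsupp.mapDomain_comp]
  congr 2
  funext i
  simp only [Function.comp_apply, actY, Prod.mk.injEq, true_and]
  simp only [actX]
  have : (w.a * (w'.a * x * w'.c⁻¹) * w.c⁻¹ : D) * w.c = w.a * (w'.a * x * w'.c⁻¹) := by group
  change ((w.a * (w'.a * x * w'.c⁻¹) * w.c⁻¹ : D) * w.c).1 i = _
  rw [this]
  rfl

theorem lF_mul (w w' : W) (k : D →₀ ZMod 2) :
    (w * w').lF k = w.lF (w'.actC k) + w.actK (w'.lF k) := by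
  induction k using Finsupp.induction_linear with
  | zero => simp
  | add k k' h1 h2 => rw [map_add, map_add, map_add, map_add, map_add, h1, h2]; abel
  | single x c =>
    have : w'.actC (Finsupp.single x c) = Finsupp.single (w'.actX x) c := by
      simp [actC, Finsupp.mapDomain_single]
    rw [lF_single, this, lF_single, lF_single, lF0_mul, smul_add]
    congr 1
    rcases zmod2_cases c with rfl | rfl
    · simp
    · simp

/-- the action on `N` -/
noncomputable def aN : W →* AddMonoid.End (((D × ℤ) →₀ ZMod 2) × (ℕ → ZMod 2)) where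
  toFun w :=
    { toFun := fun n => (w.actK n.1, w.lN n.1 + n.2)
      map_zero' := by simp
      map_add' := by
        intro x y
        simp only [Prod.fst_add, Prod.snd_add, map_add, Prod.mk_add_mk]
        congr 1
        abel }
  map_one' := by
    refine AddMonoidHom.ext fun n => ?_
    change ((1 : W).actK n.1, (1 : W).lN n.1 + n.2) = n
    have h : (1 : W).lN n.1 = 0 := by
      have h1 := lN_mul 1 1 n.1
      rw [mul_one, actK_one] at h1
      exact left_eq_add.1 h1
    rw [actK_one, h, zero_add]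
  map_mul' := by
    intro w w'
    refine AddMonoidHom.ext fun n => ?_
    change ((w * w').actK n.1, (w * w').lN n.1 + n.2) =
      (w.actK (w'.actK n.1), w.lN (w'.actK n.1) + (w'.lN n.1 + n.2))
    rw [actK_mul, lN_mul, add_assoc]

/-- the action on `F` -/
noncomputable def aF : W →* AddMonoid.End ((D →₀ ZMod 2) × ((D × ℤ) →₀ ZMod 2)) where
  toFun w :=
    { toFun := fun n => (w.actC n.1, w.lF n.1 + w.actK n.2)
      map_zero' := by simp
      map_add' := by
        intro x y
        simp only [Prod.fst_add, Prod.snd_add, map_add, Prod.mk_add_mk]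
        congr 1
        abel }
  map_one' := by
    refine AddMonoidHom.ext fun n => ?_
    change ((1 : W).actC n.1, (1 : W).lF n.1 + (1 : W).actK n.2) = n
    have h : (1 : W).lF n.1 = 0 := by
      have h1 := lF_mul 1 1 n.1
      rw [mul_one, actC_one, actK_one] at h1
      exact left_eq_add.1 h1
    rw [actC_one, actK_one, h, zero_add]
  map_mul' := by
    intro w w'
    refine AddMonoidHom.ext fun n => ?_
    change ((w * w').actC n.1, (w * w').lF n.1 + (w * w').actK n.2) =
      (w.actC (w'.actC n.1), w.lF (w'.actC n.1) + w.actK (w'.lF n.1 + w'.actK n.2))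
    rw [actC_mul, actK_mul, lF_mul, map_add, add_assoc]

/-- the action on `C` -/
noncomputable def aC : W →* AddMonoid.End (D →₀ ZMod 2) where
  toFun w := w.actC
  map_one' := by
    refine AddMonoidHom.ext fun n => ?_
    exact actC_one n
  map_mul' := by
    intro w w'
    refine AddMonoidHom.ext fun n => ?_
    exact actC_mul w w' n

end W

section gens

/-- reflection at `0` -/
def σs : D := ⟨Equiv.neg ℤ, fun j m => by
  right; simp only [Equiv.neg_apply]; constructor <;> ring⟩

/-- reflection at `1` -/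
def σt : D := ⟨Equiv.subLeft 2, fun j m => by
  right; simp only [Equiv.subLeft_apply]; constructor <;> ring⟩

/-- generators -/
def we : W := ⟨0, fun j => if j = 0 then 1 else 0, 1, 0, 1⟩
/-- generators -/
def wP : W := ⟨0, 0, σs, 0, 1⟩
/-- generators -/
def wP2 : W := ⟨0, 0, 1, 0, σs⟩
/-- generators -/
def wQ : W := ⟨0, 0, σt, 0, 1⟩
/-- generators -/
def wQ2 : W := ⟨0, 0, 1, 0, σt⟩
/-- generators -/
noncomputable def wf : W := ⟨0, 0, 1, Finsupp.single 1 1, 1⟩
/-- generators -/
noncomputable def wT : W := ⟨Finsupp.single 1 1, 0, 1, 0, 1⟩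

end gens

namespace W

theorem actX_of (w : W) (ha : w.a = 1) (hc : w.c = 1) (x : D) : w.actX x = x := by
  simp [actX, ha, hc]

theorem actC_of (w : W) (ha : w.a = 1) (hc : w.c = 1) (k : D →₀ ZMod 2) : w.actC k = k := by
  have : w.actX = id := by funext x; exact actX_of w ha hc x
  simp only [actC, Finsupp.mapDomain.addMonoidHom_apply, this, Finsupp.mapDomain_id]

theorem actK_of (w : W) (ha : w.a = 1) (hc : w.c = 1) (k : (D × ℤ) →₀ ZMod 2) :
    w.actK k = k := by
  have : w.actY = id := by
    funext y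
    simp only [actY, actX_of w ha hc, ha]
    rfl
  simp only [actK, Finsupp.mapDomain.addMonoidHom_apply, this, Finsupp.mapDomain_id]

theorem lN_of (w : W) (hp : w.p = 0) (k : (D × ℤ) →₀ ZMod 2) : w.lN k = 0 := by
  have : w.lN0 = 0 := by
    funext y n
    simp [lN0, hp]
  simp [lN, this]

theorem lF_of (w : W) (hq : w.q = 0) (k : D →₀ ZMod 2) : w.lF k = 0 := by
  have : w.lF0 = 0 := by
    funext x
    simp [lF0, hq]
  simp [lF, this]

/-- diagonal elements -/
def diag : D →* W where
  toFun x := ⟨0, 0, x, 0, x⟩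
  map_one' := rfl
  map_mul' := by
    intro x y
    ext1
    · rw [mul_g, map_zero, add_zero]
    · funext j; rw [mul_p]; simp
    · rfl
    · rw [mul_q, Finsupp.mapDomain_zero, add_zero]
    · rfl

end W

theorem shift_apply (m : ℕ) (j : ℤ) : ((σs * σt) ^ m : D).1 j = j - 2 * m := by
  induction m generalizing j with
  | zero => simp
  | succ m ih =>
    rw [pow_succ]
    change ((σs * σt) ^ m : D).1 (σs.1 (σt.1 j)) = _
    rw [ih]
    change -(2 - j) - 2 * (m : ℤ) = _
    push_cast
    ring

theorem shift_inv_apply (m : ℕ) (j : ℤ) : (((σs * σt) ^ m)⁻¹ : D).1 j = j + 2 * m := by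
  have h1 := shift_apply m (j + 2 * m)
  have h2 : j + 2 * (m : ℤ) - 2 * m = j := by ring
  rw [h2] at h1
  conv_lhs => rw [← h1]
  exact Equiv.symm_apply_apply ((σs * σt) ^ m : D).1 _

/-- The main criterion applied to the model. -/
theorem core {H : Type} [Group H] (η : H →* W) (g e f τ : H)
    (hg : η g = W.diag (σs * σt)) (he : η e = we) (hf : η f = wf) (hτ : η τ = wT)
    (hτg : Commute τ g) (hτe : Commute τ e) (hτf : Commute τ f)
    (hff : f * f = 1) (hee : e * e = 1) (hcomm : ∀ m : ℕ, Commute (g ^ m * e * (g ^ m)⁻¹) f) :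
    ¬ HasCompleteRewritingSystem H := by
  intro hH
  set ι : (((D × ℤ) →₀ ZMod 2) × (ℕ → ZMod 2)) →+ ((D →₀ ZMod 2) × ((D × ℤ) →₀ ZMod 2)) :=
    { toFun := fun n => (0, n.1)
      map_zero' := rfl
      map_add' := by intro x y; simp } with hι
  set E : H → ((D × ℤ) →₀ ZMod 2) × (ℕ → ZMod 2) :=
    fun a => (-(η a).lF (Finsupp.single 1 1), 0) with hE
  obtain ⟨Z, hZ, hmain⟩ := criterion hH (W.aN.comp η) (W.aF.comp η) (W.aC.comp η) ι
    (AddMonoidHom.fst _ _)
    (by
      intro w n
      change ((0 : D →₀ ZMod 2), (η w).actK n.1) =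
        ((η w).actC 0, (η w).lF 0 + (η w).actK n.1)
      rw [map_zero, map_zero, zero_add])
    (by intro w n; rfl)
    (by
      rintro ⟨c, k⟩ h
      change c = 0 at h
      subst h
      exact ⟨(k, 0), rfl⟩)
    (by intro c; exact ⟨(c, 0), rfl⟩)
    (by
      rintro w ⟨k, φ⟩ h
      have h0 : k = 0 := congrArg Prod.snd h
      subst h0
      change ((η w).actK 0, (η w).lN 0 + φ) = (0, φ)
      rw [map_zero, map_zero, zero_add])
    (fun w => (η w).g)
    (by
      intro w w'
      rw [map_mul]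
      rfl)
    τ
    (by
      change W.aN (η τ) = 1
      rw [hτ]
      refine AddMonoidHom.ext fun n => ?_
      change (wT.actK n.1, wT.lN n.1 + n.2) = n
      rw [W.actK_of wT rfl rfl, W.lN_of wT rfl, zero_add])
    (by
      change W.aF (η τ) = 1
      rw [hτ]
      refine AddMonoidHom.ext fun n => ?_
      change (wT.actC n.1, wT.lF n.1 + wT.actK n.2) = n
      rw [W.actC_of wT rfl rfl, W.lF_of wT rfl, W.actK_of wT rfl rfl, zero_add])
    (Finsupp.single 1 1, 0)
    (by
      rw [hτ]
      rfl)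
    E
    (by
      intro a ha
      have h1 : η τ * η a = η a * η τ := by rw [← map_mul, ← map_mul, ha.eq]
      have h2 := congrArg W.g h1
      rw [hτ, W.mul_g, W.mul_g, W.actC_of wT rfl rfl, add_comm] at h2
      have h3 : (η a).actC (Finsupp.single 1 1) = Finsupp.single 1 1 := (add_left_cancel h2).symm
      change ((0 : D →₀ ZMod 2), -(η a).lF (Finsupp.single 1 1)) =
        (Finsupp.single 1 1 - (η a).actC (Finsupp.single 1 1),
          0 - ((η a).lF (Finsupp.single 1 1) + (η a).actK 0))
      rw [h3, sub_self, map_zero, add_zero, zero_sub])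
  -- evaluation
  have hEf : E f = (-Finsupp.single (1, 1) 1, 0) := by
    rw [hE]
    simp only
    rw [hf, W.lF_single, one_smul]
    congr 2
    change Finsupp.mapDomain (fun i => (wf.actX 1, (wf.actX 1).1 i)) (Finsupp.single 1 1) = _
    rw [W.actX_of wf rfl rfl, Finsupp.mapDomain_single]
    rfl
  have hV : ∀ m : ℕ, ((0 : (D × ℤ) →₀ ZMod 2), fun n : ℕ => if n = m then (1 : ZMod 2) else 0) ∈ Z := by
    intro m
    have hgm : η (g ^ m) = W.diag ((σs * σt) ^ m) := by rw [map_pow, hg, map_pow]
    have hgm' : η (g ^ m)⁻¹ = W.diag ((σs * σt) ^ m)⁻¹ := by rw [map_inv, hgm, map_inv]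
    set p₁ := g ^ m * e * (g ^ m)⁻¹ with hp₁
    have hp₁sq : p₁ * p₁ = 1 := by
      rw [hp₁]
      have : g ^ m * e * (g ^ m)⁻¹ * (g ^ m * e * (g ^ m)⁻¹) = g ^ m * (e * e) * (g ^ m)⁻¹ := by
        group
      rw [this, hee]; group
    have hprod : [g ^ m, e, (g ^ m)⁻¹, f].prod = p₁ * f := by
      simp [hp₁, mul_assoc]
    have hpf : p₁ * f * p₁ = f := by
      rw [(hcomm m).eq, mul_assoc, hp₁sq, mul_one]
    have h1 := hmain [g ^ m, e, (g ^ m)⁻¹, f]
      (by
        intro a ha
        simp only [List.mem_cons, List.not_mem_nil, or_false] at ha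
        rcases ha with rfl | rfl | rfl | rfl
        · exact hτg.pow_right m
        · exact hτe
        · exact (hτg.pow_right m).inv_right
        · exact hτf)
      (by
        rw [hprod]
        have : p₁ * f * (p₁ * f) = p₁ * f * p₁ * f := by group
        rw [this, hpf, hff])
    have hE0 : ∀ a, (η a).q = 0 → E a = 0 := by
      intro a ha
      rw [hE]
      simp only
      rw [W.lF_of _ ha, neg_zero]
      rfl
    have hpsum : psum (W.aN.comp η) E [g ^ m, e, (g ^ m)⁻¹, f] = W.aN (η p₁) (E f) := by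
      simp only [psum]
      rw [hE0 (g ^ m) (by rw [hgm]; rfl), hE0 e (by rw [he]; rfl),
        hE0 (g ^ m)⁻¹ (by rw [hgm']; rfl), map_zero, zero_add, zero_add, zero_add, add_zero]
      rw [hp₁, map_mul, map_mul, map_mul, map_mul]
      rfl
    rw [hpsum, hprod] at h1
    have h2 : (W.aN.comp η) (p₁ * f) (W.aN (η p₁) (E f)) = W.aN (η f) (E f) := by
      have h3 : W.aN (η (p₁ * f * p₁)) = W.aN (η (p₁ * f)) * W.aN (η p₁) := by
        rw [map_mul η (p₁ * f) p₁, map_mul]
      rw [hpf] at h3
      rw [h3]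
      rfl
    rw [h2] at h1
    convert h1 using 1
    rw [hEf, hf]
    have ha : (η p₁).a = 1 := by
      rw [hp₁, map_mul, map_mul, hgm, he, hgm']
      change ((σs * σt) ^ m : D) * 1 * ((σs * σt) ^ m)⁻¹ = 1
      group
    have hc : (η p₁).c = 1 := by
      rw [hp₁, map_mul, map_mul, hgm, he, hgm']
      change ((σs * σt) ^ m : D) * 1 * ((σs * σt) ^ m)⁻¹ = 1
      group
    have hp : (η p₁).p = fun j : ℤ => if j + 2 * (m : ℤ) = 0 then (1 : ZMod 2) else 0 := by
      rw [hp₁, map_mul, map_mul, hgm, he, hgm']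
      funext j
      rw [W.mul_p, W.mul_p]
      change 0 + (if (((σs * σt) ^ m)⁻¹ : D).1 j = 0 then (1 : ZMod 2) else 0) + 0 = _
      rw [zero_add, add_zero, shift_inv_apply]
    change _ = ((η p₁).actK (-Finsupp.single (1, 1) 1), (η p₁).lN (-Finsupp.single (1, 1) 1) + 0) +
      (wf.actK (-Finsupp.single (1, 1) 1), wf.lN (-Finsupp.single (1, 1) 1) + 0)
    rw [W.actK_of _ ha hc, W.actK_of wf rfl rfl, W.lN_of wf rfl, map_neg, W.lN_single, one_smul,
      Prod.mk_add_mk, add_zero, add_zero, add_zero]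
    refine Prod.ext ?_ ?_
    · simp only
      rw [← neg_add, ← Finsupp.single_add]
      have : (1 : ZMod 2) + 1 = 0 := by decide
      rw [this, Finsupp.single_zero, neg_zero]
    · funext n
      simp only [Pi.neg_apply, W.lN0, ha, hp]
      have e0 : ((1 : D).1 (1 : ℤ)) = 1 := rfl
      rw [e0]
      have e1 : ¬ ((1 : ℤ) + (2 * (n : ℤ) + 1) + 2 * (m : ℤ) = 0) := by omega
      rw [if_neg e1, zero_add]
      by_cases hnm : n = m
      · subst hnm
        rw [if_pos rfl, if_pos (by ring)]
        rfl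
      · rw [if_neg hnm, if_neg (by omega), neg_zero]
  have hinj : Function.Injective (fun m : ℕ => ((0 : (D × ℤ) →₀ ZMod 2),
      fun n : ℕ => if n = m then (1 : ZMod 2) else 0)) := by
    intro m m' h
    have h1 := congrFun (congrArg Prod.snd h) m
    simp only [if_true] at h1
    by_contra hne
    rw [if_neg hne] at h1
    exact one_ne_zero h1
  exact Set.infinite_of_injective_forall_mem hinj hV hZ

end Pool.Agent.Lib.P1b5c59
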