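import Mathlib
import Pool.Agent.Lib.P1b5c59.Model

set_option autoImplicit false

namespace Pool.Agent.Lib.P1b5c59

/-- The ends of the 16 edges.  The vertices are `0 = u`, `1 = v`, `2 = w`, `3 = w'`, `4`, `5`, `6`,
`7`; the edges `14`, `15` are parallel. -/
def gEnds : Fin 16 → Sym2 (Fin 8) :=
  ![s(0, 2), s(0, 4), s(0, 5), s(4, 2), s(4, 3), s(5, 2), s(5, 3), s(1, 2), s(1, 6), s(1, 7),
    s(6, 2), s(6, 3), s(7, 2), s(7, 3), s(0, 1), s(0, 1)]

/-- The graph. -/
def theGraph : MultiGraph where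
  V := Fin 8
  E := Fin 16
  ends := gEnds
  finV := inferInstance
  finE := inferInstance
  loopless := by decide

section basic

theorem σs_sq : σs * σs = 1 := by
  apply Subtype.ext
  ext j
  change -(-j) = j
  ring

theorem σt_sq : σt * σt = 1 := by
  apply Subtype.ext
  ext j
  change 2 - (2 - j) = j
  ring

theorem σs_inv : σs⁻¹ = σs := inv_eq_of_mul_eq_one_left σs_sq
theorem σt_inv : σt⁻¹ = σt := inv_eq_of_mul_eq_one_left σt_sq

theorem we_sq : we * we = 1 := by
  ext1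
  · rw [W.mul_g]; change 0 + we.actC 0 = 0; rw [map_zero, add_zero]
  · funext j
    rw [W.mul_p]
    change (if j = 0 then (1 : ZMod 2) else 0) + (if ((1 : D)⁻¹).1 j = 0 then 1 else 0) = 0
    rw [inv_one]
    change (if j = 0 then (1 : ZMod 2) else 0) + (if j = 0 then 1 else 0) = 0
    split_ifs <;> rfl
  · exact mul_one 1
  · rw [W.mul_q]; change 0 + Finsupp.mapDomain _ 0 = 0; rw [Finsupp.mapDomain_zero, add_zero]
  · exact mul_one 1

theorem wP_sq : wP * wP = 1 := by
  ext1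
  · rw [W.mul_g]; change 0 + wP.actC 0 = 0; rw [map_zero, add_zero]
  · funext j; rw [W.mul_p]; change (0 : ZMod 2) + 0 = 0; rw [add_zero]
  · exact σs_sq
  · rw [W.mul_q]; change 0 + Finsupp.mapDomain _ 0 = 0; rw [Finsupp.mapDomain_zero, add_zero]
  · exact mul_one 1

theorem wP2_sq : wP2 * wP2 = 1 := by
  ext1
  · rw [W.mul_g]; change 0 + wP2.actC 0 = 0; rw [map_zero, add_zero]
  · funext j; rw [W.mul_p]; change (0 : ZMod 2) + 0 = 0; rw [add_zero]
  · exact mul_one 1
  · rw [W.mul_q]; change 0 + Finsupp.mapDomain _ 0 = 0; rw [Finsupp.mapDomain_zero, add_zero]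
  · exact σs_sq

theorem wQ_sq : wQ * wQ = 1 := by
  ext1
  · rw [W.mul_g]; change 0 + wQ.actC 0 = 0; rw [map_zero, add_zero]
  · funext j; rw [W.mul_p]; change (0 : ZMod 2) + 0 = 0; rw [add_zero]
  · exact σt_sq
  · rw [W.mul_q]; change 0 + Finsupp.mapDomain _ 0 = 0; rw [Finsupp.mapDomain_zero, add_zero]
  · exact mul_one 1

theorem wQ2_sq : wQ2 * wQ2 = 1 := by
  ext1
  · rw [W.mul_g]; change 0 + wQ2.actC 0 = 0; rw [map_zero, add_zero]
  · funext j; rw [W.mul_p]; change (0 : ZMod 2) + 0 = 0; rw [add_zero]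
  · exact mul_one 1
  · rw [W.mul_q]; change 0 + Finsupp.mapDomain _ 0 = 0; rw [Finsupp.mapDomain_zero, add_zero]
  · exact σt_sq

theorem wf_sq : wf * wf = 1 := by
  ext1
  · rw [W.mul_g]; change 0 + wf.actC 0 = 0; rw [map_zero, add_zero]
  · funext j; rw [W.mul_p]; change (0 : ZMod 2) + 0 = 0; rw [add_zero]
  · exact mul_one 1
  · rw [W.mul_q]
    change Finsupp.single 1 1 + Finsupp.mapDomain id (Finsupp.single 1 1) = 0
    rw [Finsupp.mapDomain_id, ← Finsupp.single_add]
    have : (1 : ZMod 2) + 1 = 0 := by decide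
    rw [this, Finsupp.single_zero]
  · exact mul_one 1

theorem wT_sq : wT * wT = 1 := by
  ext1
  · rw [W.mul_g, W.actC_of wT rfl rfl]
    change Finsupp.single 1 1 + Finsupp.single 1 1 = 0
    rw [← Finsupp.single_add]
    have : (1 : ZMod 2) + 1 = 0 := by decide
    rw [this, Finsupp.single_zero]
  · funext j; rw [W.mul_p]; change (0 : ZMod 2) + 0 = 0; rw [add_zero]
  · exact mul_one 1
  · rw [W.mul_q]; change 0 + Finsupp.mapDomain _ 0 = 0; rw [Finsupp.mapDomain_zero, add_zero]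
  · exact mul_one 1

/-- A general commutation lemma. -/
theorem commute_of {w w' : W} (hg : w.g + w.actC w'.g = w'.g + w'.actC w.g)
    (hp : ∀ j, w.p j + w'.p ((w.a⁻¹ : D).1 j) = w'.p j + w.p ((w'.a⁻¹ : D).1 j))
    (ha : w.a * w'.a = w'.a * w.a)
    (hq : w.q + Finsupp.mapDomain w.c.1 w'.q = w'.q + Finsupp.mapDomain w'.c.1 w.q)
    (hc : w.c * w'.c = w'.c * w.c) : Commute w w' := by
  change w * w' = w' * w
  ext1
  · exact hg
  · funext j; exact hp j
  · exact ha
  · exact hq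
  · exact hc

theorem c_e_P : Commute we wP := by
  apply commute_of
  · change (0 : D →₀ ZMod 2) + we.actC 0 = 0 + wP.actC 0; simp
  · intro j
    change (if j = 0 then (1 : ZMod 2) else 0) + 0 = 0 + (if (σs⁻¹ : D).1 j = 0 then 1 else 0)
    rw [σs_inv]
    change (if j = 0 then (1 : ZMod 2) else 0) + 0 = 0 + (if -j = 0 then 1 else 0)
    simp
  · exact (one_mul _).trans (mul_one _).symm
  · change (0 : ℤ →₀ ZMod 2) + Finsupp.mapDomain _ 0 = 0 + Finsupp.mapDomain _ 0; simp
  · exact (one_mul _).trans (mul_one _).symm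

theorem c_e_P2 : Commute we wP2 := by
  apply commute_of
  · change (0 : D →₀ ZMod 2) + we.actC 0 = 0 + wP2.actC 0; simp
  · intro j
    change (if j = 0 then (1 : ZMod 2) else 0) + 0 = 0 + (if ((1 : D)⁻¹).1 j = 0 then 1 else 0)
    rw [inv_one]
    change (if j = 0 then (1 : ZMod 2) else 0) + 0 = 0 + (if j = 0 then 1 else 0)
    simp
  · rfl
  · change (0 : ℤ →₀ ZMod 2) + Finsupp.mapDomain _ 0 = 0 + Finsupp.mapDomain _ 0; simp
  · exact (one_mul _).trans (mul_one _).symm

theorem c_e_Q2 : Commute we wQ2 := by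
  apply commute_of
  · change (0 : D →₀ ZMod 2) + we.actC 0 = 0 + wQ2.actC 0; simp
  · intro j
    change (if j = 0 then (1 : ZMod 2) else 0) + 0 = 0 + (if ((1 : D)⁻¹).1 j = 0 then 1 else 0)
    rw [inv_one]
    change (if j = 0 then (1 : ZMod 2) else 0) + 0 = 0 + (if j = 0 then 1 else 0)
    simp
  · rfl
  · change (0 : ℤ →₀ ZMod 2) + Finsupp.mapDomain _ 0 = 0 + Finsupp.mapDomain _ 0; simp
  · exact (one_mul _).trans (mul_one _).symm

theorem c_e_f : Commute we wf := by
  apply commute_of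
  · change (0 : D →₀ ZMod 2) + we.actC 0 = 0 + wf.actC 0; simp
  · intro j
    change (if j = 0 then (1 : ZMod 2) else 0) + 0 = 0 + (if ((1 : D)⁻¹).1 j = 0 then 1 else 0)
    rw [inv_one]
    change (if j = 0 then (1 : ZMod 2) else 0) + 0 = 0 + (if j = 0 then 1 else 0)
    simp
  · rfl
  · change (0 : ℤ →₀ ZMod 2) + Finsupp.mapDomain id (Finsupp.single 1 1) =
      Finsupp.single 1 1 + Finsupp.mapDomain id 0
    simp
  · rfl

theorem c_e_T : Commute we wT := by
  apply commute_of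
  · rw [W.actC_of we rfl rfl, W.actC_of wT rfl rfl, add_comm]
  · intro j
    change (if j = 0 then (1 : ZMod 2) else 0) + 0 = 0 + (if ((1 : D)⁻¹).1 j = 0 then 1 else 0)
    rw [inv_one]
    change (if j = 0 then (1 : ZMod 2) else 0) + 0 = 0 + (if j = 0 then 1 else 0)
    simp
  · rfl
  · change (0 : ℤ →₀ ZMod 2) + Finsupp.mapDomain _ 0 = 0 + Finsupp.mapDomain _ 0; simp
  · rfl

theorem c_zero {w w' : W} (hg : w.g = 0) (hg' : w'.g = 0) (hp : w.p = 0) (hp' : w'.p = 0)
    (hq : w.q = 0) (hq' : w'.q = 0) (ha : w.a * w'.a = w'.a * w.a) (hc : w.c * w'.c = w'.c * w.c) :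
    Commute w w' := by
  apply commute_of
  · rw [hg, hg', map_zero, map_zero]
  · intro j; rw [hp, hp']; rfl
  · exact ha
  · rw [hq, hq', Finsupp.mapDomain_zero, Finsupp.mapDomain_zero]
  · exact hc

theorem c_P_P2 : Commute wP wP2 :=
  c_zero rfl rfl rfl rfl rfl rfl ((mul_one _).trans (one_mul _).symm)
    ((one_mul _).trans (mul_one _).symm)

theorem c_P_Q2 : Commute wP wQ2 :=
  c_zero rfl rfl rfl rfl rfl rfl ((mul_one _).trans (one_mul _).symm)
    ((one_mul _).trans (mul_one _).symm)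

theorem c_Q_P2 : Commute wQ wP2 :=
  c_zero rfl rfl rfl rfl rfl rfl ((mul_one _).trans (one_mul _).symm)
    ((one_mul _).trans (mul_one _).symm)

theorem c_Q_Q2 : Commute wQ wQ2 :=
  c_zero rfl rfl rfl rfl rfl rfl ((mul_one _).trans (one_mul _).symm)
    ((one_mul _).trans (mul_one _).symm)

theorem c_f_of {w : W} (hg : w.g = 0) (hp : w.p = 0) (hq : w.q = 0) (hc : w.c = 1) :
    Commute w wf := by
  apply commute_of
  · rw [hg]; change 0 + w.actC 0 = 0 + wf.actC 0; simp
  · intro j; rw [hp]; rfl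
  · exact (mul_one _).trans (one_mul _).symm
  · rw [hq, hc]
    change (0 : ℤ →₀ ZMod 2) + Finsupp.mapDomain id (Finsupp.single 1 1) =
      Finsupp.single 1 1 + Finsupp.mapDomain id 0
    simp
  · rw [hc]; rfl

theorem c_P_f : Commute wP wf := c_f_of rfl rfl rfl rfl
theorem c_Q_f : Commute wQ wf := c_f_of rfl rfl rfl rfl

theorem c_Q2_f : Commute wQ2 wf := by
  apply commute_of
  · change 0 + wQ2.actC 0 = 0 + wf.actC 0; simp
  · intro j; rfl
  · rfl
  · change (0 : ℤ →₀ ZMod 2) + Finsupp.mapDomain σt.1 (Finsupp.single 1 1) =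
      Finsupp.single 1 1 + Finsupp.mapDomain id 0
    rw [Finsupp.mapDomain_single, Finsupp.mapDomain_zero, zero_add, add_zero]
    rfl
  · exact (mul_one _).trans (one_mul _).symm

theorem c_f_T : Commute wf wT := by
  apply commute_of
  · rw [W.actC_of wf rfl rfl, W.actC_of wT rfl rfl, add_comm]
  · intro j; rfl
  · rfl
  · change Finsupp.single 1 1 + Finsupp.mapDomain id 0 =
      (0 : ℤ →₀ ZMod 2) + Finsupp.mapDomain id (Finsupp.single 1 1)
    simp
  · rfl

theorem c_T_of {w : W} (hg : w.g = 0) (hp : w.p = 0) (hq : w.q = 0) (hac : w.a * w.c⁻¹ = 1) :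
    Commute w wT := by
  apply commute_of
  · rw [hg]
    change 0 + w.actC (Finsupp.single 1 1) = Finsupp.single 1 1 + wT.actC 0
    have : w.actC (Finsupp.single 1 1) = Finsupp.single (w.actX 1) 1 := by
      simp [W.actC, Finsupp.mapDomain_single]
    rw [this, map_zero, zero_add, add_zero, W.actX, mul_one, hac]
  · intro j; rw [hp]; rfl
  · exact (mul_one _).trans (one_mul _).symm
  · rw [hq]
    change (0 : ℤ →₀ ZMod 2) + Finsupp.mapDomain _ 0 = 0 + Finsupp.mapDomain _ 0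
    simp
  · exact (mul_one _).trans (one_mul _).symm

theorem PP2_eq : wP * wP2 = W.diag σs := by
  ext1
  · rw [W.mul_g]; change 0 + wP.actC 0 = 0; simp
  · funext j; rw [W.mul_p]; change (0 : ZMod 2) + 0 = 0; simp
  · exact mul_one _
  · rw [W.mul_q]; change (0 : ℤ →₀ ZMod 2) + Finsupp.mapDomain _ 0 = 0; simp
  · exact one_mul _

theorem QQ2_eq : wQ * wQ2 = W.diag σt := by
  ext1
  · rw [W.mul_g]; change 0 + wQ.actC 0 = 0; simp
  · funext j; rw [W.mul_p]; change (0 : ZMod 2) + 0 = 0; simp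
  · exact mul_one _
  · rw [W.mul_q]; change (0 : ℤ →₀ ZMod 2) + Finsupp.mapDomain _ 0 = 0; simp
  · exact one_mul _

theorem c_PP2_T : Commute (wP * wP2) wT := by
  rw [PP2_eq]
  exact c_T_of rfl rfl rfl (mul_inv_cancel _)

theorem c_QQ2_T : Commute (wQ * wQ2) wT := by
  rw [QQ2_eq]
  exact c_T_of rfl rfl rfl (mul_inv_cancel _)

end basic

end Pool.Agent.Lib.P1b5c59
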