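import Mathlib
import Pool.Agent.Lib.P1b5c59.Graph

set_option autoImplicit false

namespace Pool.Agent.Lib.P1b5c59

/-- The images of the generators `x_e`. -/
noncomputable def wt : Fin 16 → W :=
  ![we, wP * wP2, wP * wP2 * we, wP, wP2, wP * we, wP2, wf, wQ * wQ2, wQ * wQ2 * wf,
    wQ2, wQ, wQ2 * wf, wQ, wT, wT]

/-- The edges at a vertex. -/
def star : Fin 8 → List (Fin 16) :=
  ![[0, 1, 2, 14, 15], [7, 8, 9, 14, 15], [0, 3, 5, 7, 10, 12], [4, 6, 11, 13], [1, 3, 4],
    [2, 5, 6], [8, 10, 11], [9, 12, 13]]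

theorem star_nodup : ∀ v, (star v).Nodup := by decide

theorem mem_star : ∀ v e, e ∈ star v ↔ v ∈ gEnds e := by decide

/-- Commuting generators at a vertex. -/
noncomputable def basics : Fin 8 → Set W :=
  ![{we, wP * wP2, wT}, {wf, wQ * wQ2, wT}, {we, wP, wf, wQ2}, {wP2, wQ}, {wP, wP2},
    {wP, wP2, we}, {wQ, wQ2}, {wQ, wQ2, wf}]

theorem pair_comm {x y : W} (h : Commute x y) :
    ∀ a ∈ ({x, y} : Set W), ∀ b ∈ ({x, y} : Set W), Commute a b := by
  intro a ha b hb
  rw [Set.mem_insert_iff, Set.mem_singleton_iff] at ha hb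
  rcases ha with ha | ha <;> rcases hb with hb | hb <;> rw [ha, hb]
  · exact h
  · exact h.symm

theorem insert_comm {s : Set W} (hs : ∀ a ∈ s, ∀ b ∈ s, Commute a b) {x : W}
    (hx : ∀ a ∈ s, Commute x a) :
    ∀ a ∈ insert x s, ∀ b ∈ insert x s, Commute a b := by
  intro a ha b hb
  rw [Set.mem_insert_iff] at ha hb
  rcases ha with ha | ha
  · rw [ha]
    rcases hb with hb | hb
    · rw [hb]
    · exact hx b hb
  · rcases hb with hb | hb
    · rw [hb]; exact (hx a ha).symm
    · exact hs a ha b hb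

theorem forall_pair {x y z : W} (h1 : Commute z x) (h2 : Commute z y) :
    ∀ a ∈ ({x, y} : Set W), Commute z a := by
  intro a ha
  rw [Set.mem_insert_iff, Set.mem_singleton_iff] at ha
  rcases ha with ha | ha <;> rw [ha]
  · exact h1
  · exact h2

theorem forall_triple {x y w z : W} (h1 : Commute z x) (h2 : Commute z y) (h3 : Commute z w) :
    ∀ a ∈ ({x, y, w} : Set W), Commute z a := by
  intro a ha
  rw [Set.mem_insert_iff, Set.mem_insert_iff, Set.mem_singleton_iff] at ha
  rcases ha with ha | ha | ha <;> rw [ha]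
  · exact h1
  · exact h2
  · exact h3

theorem basics_comm : ∀ v, ∀ x ∈ basics v, ∀ y ∈ basics v, Commute x y := by
  have h16 : Commute we (wP * wP2) := c_e_P.mul_right c_e_P2
  have h17 : Commute wf (wQ * wQ2) := c_Q_f.symm.mul_right c_Q2_f.symm
  have b0 := insert_comm (pair_comm c_PP2_T) (forall_pair h16 c_e_T)
  have b1 := insert_comm (pair_comm c_QQ2_T) (forall_pair h17 c_f_T)
  have b2 := insert_comm (insert_comm (pair_comm c_Q2_f.symm) (forall_pair c_P_f c_P_Q2))
    (forall_triple c_e_P c_e_f c_e_Q2)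
  have b3 := pair_comm c_Q_P2.symm
  have b4 := pair_comm c_P_P2
  have b5 := insert_comm (pair_comm c_e_P2.symm) (forall_pair c_P_P2 c_e_P.symm)
  have b6 := pair_comm c_Q_Q2
  have b7 := insert_comm (pair_comm c_Q2_f) (forall_pair c_Q_Q2 c_Q_f)
  intro v
  fin_cases v
  exacts [b0, b1, b2, b3, b4, b5, b6, b7]

theorem wt_mem (v : Fin 8) : ∀ e ∈ star v, wt e ∈ Submonoid.closure (basics v) := by
  have sub : ∀ v x, x ∈ basics v → x ∈ Submonoid.closure (basics v) :=
    fun v x h => Submonoid.subset_closure h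
  fin_cases v
  · intro e he
    have he' : e = 0 ∨ e = 1 ∨ e = 2 ∨ e = 14 ∨ e = 15 := by simpa [star] using he
    have k1 : we ∈ Submonoid.closure (basics 0) := sub 0 _ (by simp [basics])
    have k2 : wP * wP2 ∈ Submonoid.closure (basics 0) := sub 0 _ (by simp [basics])
    have k3 : wT ∈ Submonoid.closure (basics 0) := sub 0 _ (by simp [basics])
    rcases he' with rfl | rfl | rfl | rfl | rfl
    exacts [k1, k2, mul_mem k2 k1, k3, k3]
  · intro e he
    have he' : e = 7 ∨ e = 8 ∨ e = 9 ∨ e = 14 ∨ e = 15 := by simpa [star] using he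
    have k1 : wf ∈ Submonoid.closure (basics 1) := sub 1 _ (by simp [basics])
    have k2 : wQ * wQ2 ∈ Submonoid.closure (basics 1) := sub 1 _ (by simp [basics])
    have k3 : wT ∈ Submonoid.closure (basics 1) := sub 1 _ (by simp [basics])
    rcases he' with rfl | rfl | rfl | rfl | rfl
    exacts [k1, k2, mul_mem k2 k1, k3, k3]
  · intro e he
    have he' : e = 0 ∨ e = 3 ∨ e = 5 ∨ e = 7 ∨ e = 10 ∨ e = 12 := by simpa [star] using he
    have k1 : we ∈ Submonoid.closure (basics 2) := sub 2 _ (by simp [basics])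
    have k2 : wP ∈ Submonoid.closure (basics 2) := sub 2 _ (by simp [basics])
    have k3 : wf ∈ Submonoid.closure (basics 2) := sub 2 _ (by simp [basics])
    have k4 : wQ2 ∈ Submonoid.closure (basics 2) := sub 2 _ (by simp [basics])
    rcases he' with rfl | rfl | rfl | rfl | rfl | rfl
    exacts [k1, k2, mul_mem k2 k1, k3, k4, mul_mem k4 k3]
  · intro e he
    have he' : e = 4 ∨ e = 6 ∨ e = 11 ∨ e = 13 := by simpa [star] using he
    have k1 : wP2 ∈ Submonoid.closure (basics 3) := sub 3 _ (by simp [basics])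
    have k2 : wQ ∈ Submonoid.closure (basics 3) := sub 3 _ (by simp [basics])
    rcases he' with rfl | rfl | rfl | rfl
    exacts [k1, k1, k2, k2]
  · intro e he
    have he' : e = 1 ∨ e = 3 ∨ e = 4 := by simpa [star] using he
    have k1 : wP ∈ Submonoid.closure (basics 4) := sub 4 _ (by simp [basics])
    have k2 : wP2 ∈ Submonoid.closure (basics 4) := sub 4 _ (by simp [basics])
    rcases he' with rfl | rfl | rfl
    exacts [mul_mem k1 k2, k1, k2]
  · intro e he
    have he' : e = 2 ∨ e = 5 ∨ e = 6 := by simpa [star] using he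
    have k1 : wP ∈ Submonoid.closure (basics 5) := sub 5 _ (by simp [basics])
    have k2 : wP2 ∈ Submonoid.closure (basics 5) := sub 5 _ (by simp [basics])
    have k3 : we ∈ Submonoid.closure (basics 5) := sub 5 _ (by simp [basics])
    rcases he' with rfl | rfl | rfl
    exacts [mul_mem (mul_mem k1 k2) k3, mul_mem k1 k3, k2]
  · intro e he
    have he' : e = 8 ∨ e = 10 ∨ e = 11 := by simpa [star] using he
    have k1 : wQ ∈ Submonoid.closure (basics 6) := sub 6 _ (by simp [basics])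
    have k2 : wQ2 ∈ Submonoid.closure (basics 6) := sub 6 _ (by simp [basics])
    rcases he' with rfl | rfl | rfl
    exacts [mul_mem k1 k2, k2, k1]
  · intro e he
    have he' : e = 9 ∨ e = 12 ∨ e = 13 := by simpa [star] using he
    have k1 : wQ ∈ Submonoid.closure (basics 7) := sub 7 _ (by simp [basics])
    have k2 : wQ2 ∈ Submonoid.closure (basics 7) := sub 7 _ (by simp [basics])
    have k3 : wf ∈ Submonoid.closure (basics 7) := sub 7 _ (by simp [basics])
    rcases he' with rfl | rfl | rfl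
    exacts [mul_mem (mul_mem k1 k2) k3, mul_mem k2 k3, k1]

theorem closure_comm {M : Type} [Monoid M] {s : Set M} (hs : ∀ x ∈ s, ∀ y ∈ s, Commute x y)
    {x y : M} (hx : x ∈ Submonoid.closure s) (hy : y ∈ Submonoid.closure s) : Commute x y := by
  induction hx using Submonoid.closure_induction with
  | mem x hx =>
    induction hy using Submonoid.closure_induction with
    | mem y hy => exact hs x hx y hy
    | one => exact Commute.one_right _
    | mul y y' _ _ h1 h2 => exact h1.mul_right h2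
  | one => exact Commute.one_left _
  | mul x x' _ _ h1 h2 => exact h1.mul_left h2

theorem wt_comm (v : Fin 8) (e e' : Fin 16) (h : v ∈ gEnds e) (h' : v ∈ gEnds e') :
    Commute (wt e) (wt e') :=
  closure_comm (basics_comm v) (wt_mem v e ((mem_star v e).2 h)) (wt_mem v e' ((mem_star v e').2 h'))

theorem wt_sq (e : Fin 16) : wt e * wt e = 1 := by
  have sq_mul : ∀ {x y : W}, Commute x y → x * x = 1 → y * y = 1 → (x * y) * (x * y) = 1 := by
    intro x y h hx hy
    have : x * y * (x * y) = (x * x) * (y * y) := by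
      rw [mul_assoc, ← mul_assoc y x y, ← h.eq]
      simp only [mul_assoc]
    rw [this, hx, hy, mul_one]
  have hPP2 := sq_mul c_P_P2 wP_sq wP2_sq
  have hQQ2 := sq_mul c_Q_Q2 wQ_sq wQ2_sq
  have c1 : Commute (wP * wP2) we := (c_e_P.mul_right c_e_P2).symm
  have c2 : Commute (wQ * wQ2) wf := c_Q_f.mul_left c_Q2_f
  fin_cases e
  · exact we_sq
  · exact hPP2
  · exact sq_mul c1 hPP2 we_sq
  · exact wP_sq
  · exact wP2_sq
  · exact sq_mul c_e_P.symm wP_sq we_sq
  · exact wP2_sq
  · exact wf_sq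
  · exact hQQ2
  · exact sq_mul c2 hQQ2 wf_sq
  · exact wQ2_sq
  · exact wQ_sq
  · exact sq_mul c_Q2_f wQ2_sq wf_sq
  · exact wQ_sq
  · exact wT_sq
  · exact wT_sq

theorem star_prod (v : Fin 8) : ((star v).map wt).prod = 1 := by
  have a1 : we * we = 1 := we_sq
  have a2 : wP * wP = 1 := wP_sq
  have a3 : wP2 * wP2 = 1 := wP2_sq
  have a4 : wQ * wQ = 1 := wQ_sq
  have a5 : wQ2 * wQ2 = 1 := wQ2_sq
  have a6 : wf * wf = 1 := wf_sq
  have a7 : wT * wT = 1 := wT_sq
  have hs := wt_sq
  have c12 := wt_comm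
  fin_cases v
  · change ([0, 1, 2, 14, 15].map wt).prod = 1
    simp only [List.map_cons, List.map_nil, List.prod_cons, List.prod_nil, mul_one]
    change we * (wP * wP2 * (wP * wP2 * we * (wT * wT))) = 1
    have h : wP * wP2 * (wP * wP2) = 1 := hs 1
    rw [a7, mul_one, ← mul_assoc (wP * wP2) (wP * wP2) we, h, one_mul, a1]
  · change ([7, 8, 9, 14, 15].map wt).prod = 1
    simp only [List.map_cons, List.map_nil, List.prod_cons, List.prod_nil, mul_one]
    change wf * (wQ * wQ2 * (wQ * wQ2 * wf * (wT * wT))) = 1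
    have h : wQ * wQ2 * (wQ * wQ2) = 1 := hs 8
    rw [a7, mul_one, ← mul_assoc (wQ * wQ2) (wQ * wQ2) wf, h, one_mul, a6]
  · change ([0, 3, 5, 7, 10, 12].map wt).prod = 1
    simp only [List.map_cons, List.map_nil, List.prod_cons, List.prod_nil, mul_one]
    change we * (wP * (wP * we * (wf * (wQ2 * (wQ2 * wf))))) = 1
    rw [← mul_assoc wQ2 wQ2 wf, a5, one_mul, a6, mul_one, ← mul_assoc wP wP we, a2, one_mul, a1]
  · change ([4, 6, 11, 13].map wt).prod = 1
    simp only [List.map_cons, List.map_nil, List.prod_cons, List.prod_nil, mul_one]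
    change wP2 * (wP2 * (wQ * wQ)) = 1
    rw [a4, mul_one, a3]
  · change ([1, 3, 4].map wt).prod = 1
    simp only [List.map_cons, List.map_nil, List.prod_cons, List.prod_nil, mul_one]
    change wP * wP2 * (wP * wP2) = 1
    exact hs 1
  · change ([2, 5, 6].map wt).prod = 1
    simp only [List.map_cons, List.map_nil, List.prod_cons, List.prod_nil, mul_one]
    change wP * wP2 * we * (wP * we * wP2) = 1
    have h1 : wP * we * wP2 = wP * wP2 * we := by
      rw [mul_assoc, c_e_P2.eq, ← mul_assoc]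
    rw [h1]
    exact hs 2
  · change ([8, 10, 11].map wt).prod = 1
    simp only [List.map_cons, List.map_nil, List.prod_cons, List.prod_nil, mul_one]
    change wQ * wQ2 * (wQ2 * wQ) = 1
    rw [← c_Q_Q2.eq]
    exact hs 8
  · change ([9, 12, 13].map wt).prod = 1
    simp only [List.map_cons, List.map_nil, List.prod_cons, List.prod_nil, mul_one]
    change wQ * wQ2 * wf * (wQ2 * wf * wQ) = 1
    have h1 : wQ2 * wf * wQ = wQ * wQ2 * wf := by
      rw [mul_assoc, ← c_Q_f.eq, ← mul_assoc, ← c_Q_Q2.eq]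
    rw [h1]
    exact hs 9

theorem wt_prod (v : Fin 8) (l : List (Fin 16)) (hl : l.Nodup) (hv : ∀ e, e ∈ l ↔ v ∈ gEnds e) :
    (l.map wt).prod = 1 := by
  have hperm : l.Perm (star v) :=
    (List.perm_ext_iff_of_nodup hl (star_nodup v)).2 (fun e => (hv e).trans (mem_star v e).symm)
  rw [← star_prod v]
  refine List.Perm.prod_eq' (hperm.map wt) ?_
  rw [List.pairwise_map]
  refine List.Pairwise.imp_of_mem ?_ (List.pairwise_of_forall (R := fun _ _ => True) (fun _ _ => trivial))
  intro a b ha hb _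
  exact wt_comm v a b ((hv a).1 ha) ((hv b).1 hb)

/-- The group-theoretic part. -/
theorem no_crs_of {H : Type} [Group H] (X : Fin 16 → H) (j₁ j₂ : H)
    (hj₁ : ∀ e, Commute j₁ (X e)) (hj₂ : ∀ e, Commute j₂ (X e)) 
    (hsq : ∀ e, X e * X e = 1)
    (hcomm : ∀ (v : Fin 8) (e e' : Fin 16), v ∈ gEnds e → v ∈ gEnds e' → Commute (X e) (X e'))
    (h₁ : X 1 * X 3 * X 4 = j₁) (h₂ : X 8 * X 10 * X 11 = j₂) (η : H →* W)
    (hη : ∀ e, η (X e) = wt e) : ¬ HasCompleteRewritingSystem H := by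
  have inv : ∀ e, (X e)⁻¹ = X e := fun e => inv_eq_of_mul_eq_one_left (hsq e)
  -- commutations
  have e1 : X 4 = X 3 * X 1 * j₁ := by
    rw [← h₁]
    have : X 3 * X 1 * (X 1 * X 3 * X 4) = X 3 * (X 1 * X 1) * X 3 * X 4 := by group
    rw [this, hsq, mul_one, hsq, one_mul]
  have e2 : X 11 = X 10 * X 8 * j₂ := by
    rw [← h₂]
    have : X 10 * X 8 * (X 8 * X 10 * X 11) = X 10 * (X 8 * X 8) * X 10 * X 11 := by group
    rw [this, hsq, mul_one, hsq, one_mul]
  have c0_7 : Commute (X 0) (X 7) := hcomm 2 0 7 (by decide) (by decide)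
  have c0_10 : Commute (X 0) (X 10) := hcomm 2 0 10 (by decide) (by decide)
  have c0_4 : Commute (X 0) (X 4) := by
    rw [e1]
    exact ((hcomm 2 0 3 (by decide) (by decide)).mul_right
      (hcomm 0 0 1 (by decide) (by decide))).mul_right (hj₁ 0).symm
  have c3_7 : Commute (X 3) (X 7) := hcomm 2 3 7 (by decide) (by decide)
  have c3_10 : Commute (X 3) (X 10) := hcomm 2 3 10 (by decide) (by decide)
  have c3_4 : Commute (X 3) (X 4) := hcomm 4 3 4 (by decide) (by decide)
  have c11_4 : Commute (X 11) (X 4) := hcomm 3 11 4 (by decide) (by decide)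
  have c11_10 : Commute (X 11) (X 10) := hcomm 6 11 10 (by decide) (by decide)
  have c11_7 : Commute (X 11) (X 7) := by
    rw [e2]
    exact ((hcomm 2 10 7 (by decide) (by decide)).mul_left
      (hcomm 1 8 7 (by decide) (by decide))).mul_left (hj₂ 7)
  -- the element `g`
  have e3 : X 1 = X 3 * X 4 * j₁ := by
    have : X 1 = j₁ * (X 4)⁻¹ * (X 3)⁻¹ := by rw [← h₁]; group
    rw [this, inv, inv, (hj₁ 4).eq, mul_assoc, (hj₁ 3).eq, ← mul_assoc, c3_4.eq]
  have e4 : X 8 = X 11 * X 10 * j₂ := by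
    have : X 8 = j₂ * (X 11)⁻¹ * (X 10)⁻¹ := by rw [← h₂]; group
    rw [this, inv, inv, (hj₂ 11).eq, mul_assoc, (hj₂ 10).eq, ← mul_assoc]
  set g₁ := X 3 * X 11 with hg₁
  set g₂ := X 4 * X 10 * (j₁ * j₂) with hg₂
  have hg : X 1 * X 8 = g₁ * g₂ := by
    rw [e3, e4, hg₁, hg₂]
    have k1 : X 3 * X 4 * j₁ * (X 11 * X 10 * j₂) = X 3 * X 4 * (j₁ * (X 11 * X 10)) * j₂ := by group
    rw [k1, ((hj₁ 11).mul_right (hj₁ 10)).eq]
    have k2 : X 3 * X 4 * (X 11 * X 10 * j₁) * j₂ = X 3 * (X 4 * X 11) * X 10 * (j₁ * j₂) := by group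
    rw [k2, ← c11_4.eq]
    group
  have hg12 : Commute g₁ g₂ := by
    rw [hg₁, hg₂]
    refine Commute.mul_right (Commute.mul_left ?_ ?_) (Commute.mul_left ?_ ?_)
    · exact c3_4.mul_right c3_10
    · exact c11_4.mul_right c11_10
    · exact ((hj₁ 3).symm.mul_right (hj₂ 3).symm)
    · exact ((hj₁ 11).symm.mul_right (hj₂ 11).symm)
  have hg2_0 : Commute g₂ (X 0) := by
    rw [hg₂]
    exact (c0_4.symm.mul_left c0_10.symm).mul_left ((hj₁ 0).mul_left (hj₂ 0))
  have hg1_7 : Commute g₁ (X 7) := by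
    rw [hg₁]; exact c3_7.mul_left c11_7
  refine core η (X 1 * X 8) (X 0) (X 7) (X 14) ?_ (hη 0) (hη 7) (hη 14) ?_ ?_ ?_ (hsq 7) (hsq 0) ?_
  · rw [map_mul, hη, hη]
    change wP * wP2 * (wQ * wQ2) = _
    rw [PP2_eq, QQ2_eq, ← map_mul]
  · exact (hcomm 0 14 1 (by decide) (by decide)).mul_right (hcomm 1 14 8 (by decide) (by decide))
  · exact hcomm 0 14 0 (by decide) (by decide)
  · exact hcomm 1 14 7 (by decide) (by decide)
  · intro m
    have k1 : (X 1 * X 8) ^ m * X 0 * ((X 1 * X 8) ^ m)⁻¹ = g₁ ^ m * X 0 * (g₁ ^ m)⁻¹ := by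
      rw [hg, hg12.mul_pow, mul_assoc (g₁ ^ m) (g₂ ^ m), (hg2_0.pow_left m).eq]
      group
    rw [k1]
    exact ((hg1_7.pow_left m).mul_left c0_7).mul_left (hg1_7.pow_left m).inv_left

end Pool.Agent.Lib.P1b5c59
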