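import Mathlib
import Pool.Agent.Lib.P1b5c59.Final

set_option autoImplicit false

/-!
# A simple graph

The second of the two parallel edges of `theGraph` is subdivided by a new vertex.
-/

namespace Pool.Agent.Lib.P1b5c59

/-- The ends of the 17 edges.  The vertices are `0 = u`, `1 = v`, `2 = w`, `3 = w'`, `4`, `5`, `6`,
`7` as in `theGraph`, and `8`, which subdivides the second edge `uv`. -/
def sEnds : Fin 17 → Sym2 (Fin 9) :=
  ![s(0, 2), s(0, 4), s(0, 5), s(4, 2), s(4, 3), s(5, 2), s(5, 3), s(1, 2), s(1, 6), s(1, 7),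
    s(6, 2), s(6, 3), s(7, 2), s(7, 3), s(0, 1), s(0, 8), s(1, 8)]

/-- The simple graph. -/
def simpleGraph : MultiGraph where
  V := Fin 9
  E := Fin 17
  ends := sEnds
  finV := inferInstance
  finE := inferInstance
  loopless := by decide

theorem sEnds_injective : Function.Injective sEnds := by decide

/-- The inclusion of the vertices. -/
def vin : Fin 8 → Fin 9 := ![0, 1, 2, 3, 4, 5, 6, 7]

/-- The map of the edges of `theGraph` used for the generators. -/
def ein : Fin 16 → Fin 17 := ![0, 1, 2, 3, 4, 5, 6, 7, 8, 9, 10, 11, 12, 13, 14, 14]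

/-- The contraction of the edges. -/
def eout : Fin 17 → Fin 16 := ![0, 1, 2, 3, 4, 5, 6, 7, 8, 9, 10, 11, 12, 13, 14, 15, 15]

theorem ein_mem : ∀ (v : Fin 8) (e : Fin 16), v ∈ gEnds e → vin v ∈ sEnds (ein e) := by decide

theorem eout_mem : ∀ (v : Fin 8) (e : Fin 17), vin v ∈ sEnds e → v ∈ gEnds (eout e) := by decide

theorem eout_inj : ∀ (v : Fin 8) (e e' : Fin 17), vin v ∈ sEnds e → vin v ∈ sEnds e' →
    eout e = eout e' → e = e' := by decide

theorem eout_surj : ∀ (v : Fin 8) (e : Fin 16), v ∈ gEnds e →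
    ∃ e' : Fin 17, vin v ∈ sEnds e' ∧ eout e' = e := by decide

theorem cases_vertex : ∀ v : Fin 9, v = 8 ∨ ∃ v' : Fin 8, v = vin v' := by decide

theorem mem_eight : ∀ e : Fin 17, (8 : Fin 9) ∈ sEnds e ↔ e ∈ ([15, 16] : List (Fin 17)) := by
  decide

/-- The images of the generators. -/
noncomputable def ws (e : Fin 17) : W := wt (eout e)

theorem ws_sq (e : Fin 17) : ws e * ws e = 1 := wt_sq _

theorem ws_eight {e : Fin 17} (h : (8 : Fin 9) ∈ sEnds e) : ws e = wT := by
  have h1 := (mem_eight e).1 h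
  rw [List.mem_cons, List.mem_singleton] at h1
  rcases h1 with rfl | rfl <;> rfl

theorem ws_comm (v : Fin 9) (e e' : Fin 17) (h : v ∈ sEnds e) (h' : v ∈ sEnds e') :
    Commute (ws e) (ws e') := by
  rcases cases_vertex v with rfl | ⟨v', rfl⟩
  · rw [ws_eight h, ws_eight h']
  · exact wt_comm v' _ _ (eout_mem v' e h) (eout_mem v' e' h')

theorem ws_prod (v : Fin 9) (l : List (Fin 17)) (hl : l.Nodup) (hv : ∀ e, e ∈ l ↔ v ∈ sEnds e) :
    (l.map ws).prod = 1 := by
  rcases cases_vertex v with rfl | ⟨v', rfl⟩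
  · have hperm : l.Perm ([15, 16] : List (Fin 17)) :=
      (List.perm_ext_iff_of_nodup hl (by decide)).2 (fun e => (hv e).trans (mem_eight e))
    have h1 : (([15, 16] : List (Fin 17)).map ws).prod = 1 := by
      simp only [List.map_cons, List.map_nil, List.prod_cons, List.prod_nil, mul_one]
      exact wT_sq
    rw [← h1]
    refine List.Perm.prod_eq' (hperm.map ws) ?_
    rw [List.pairwise_map]
    refine List.Pairwise.imp_of_mem ?_
      (List.pairwise_of_forall (R := fun _ _ => True) (fun _ _ => trivial))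
    intro a b ha hb _
    exact ws_comm 8 a b ((hv a).1 ha) ((hv b).1 hb)
  · have h1 : (l.map ws) = (l.map eout).map wt := by
      rw [List.map_map]
      rfl
    rw [h1]
    refine wt_prod v' (l.map eout) ?_ ?_
    · refine List.Nodup.map_on ?_ hl
      intro x hx y hy hxy
      exact eout_inj v' x y ((hv x).1 hx) ((hv y).1 hy) hxy
    · intro e
      rw [List.mem_map]
      constructor
      · rintro ⟨x, hx, rfl⟩
        exact eout_mem v' x ((hv x).1 hx)
      · intro he
        obtain ⟨x, hx, hxe⟩ := eout_surj v' e he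
        exact ⟨x, (hv x).2 hx, hxe⟩

theorem wt_ein (e : Fin 16) : ws (ein e) = wt e := by
  have h : ∀ e : Fin 16, eout (ein e) = e ∨ (e = 15 ∧ eout (ein e) = 14) := by decide
  unfold ws
  rcases h e with h1 | ⟨rfl, h1⟩
  · rw [h1]
  · rw [h1]
    rfl

/-- The group-theoretic part for the simple graph. -/
theorem no_crs_of_simple {H : Type} [Group H] (X : Fin 17 → H) (j₁ j₂ : H)
    (hj₁ : ∀ e, Commute j₁ (X e)) (hj₂ : ∀ e, Commute j₂ (X e))
    (hsq : ∀ e, X e * X e = 1)
    (hcomm : ∀ (v : Fin 9) (e e' : Fin 17), v ∈ sEnds e → v ∈ sEnds e' → Commute (X e) (X e'))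
    (h₁ : X 1 * X 3 * X 4 = j₁) (h₂ : X 8 * X 10 * X 11 = j₂) (η : H →* W)
    (hη : ∀ e, η (X e) = ws e) : ¬ HasCompleteRewritingSystem H := by
  refine no_crs_of (fun e => X (ein e)) j₁ j₂ (fun e => hj₁ _) (fun e => hj₂ _) (fun e => hsq _)
    (fun v e e' h h' => hcomm (vin v) _ _ (ein_mem v e h) (ein_mem v e' h')) h₁ h₂ η
    (fun e => ?_)
  rw [hη, wt_ein]

end Pool.Agent.Lib.P1b5c59
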